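import Pool.Agent.Helper12_UNF.Stmts2
import Pool.Agent.Helper63_Art.Semi
import Pool.Agent.Helper69_Art.Free

set_option autoImplicit false

/-! # Squad UNF: CLG, closed sets for an action on a free group -/

namespace Unf

open Art

/-- A finite quotient of a free group of finite rank. -/
theorem exists_f {X : Type} [Finite X] (u : FreeGroup X) (hu : u ≠ 1) :
    ∃ (P : Type) (_ : Group P) (_ : Finite P) (f : FreeGroup X →* P), f u ≠ 1 := by
  obtain ⟨n, ⟨e⟩⟩ := Finite.exists_equiv_fin X
  have h := Art.H69.free n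
  let E := FreeGroup.freeGroupCongr e
  have hu' : E u ≠ 1 := by
    intro h
    apply hu
    exact E.injective (by rw [h, map_one])
  obtain ⟨K, hK⟩ := Group.residuallyFinite_iff_exists_finiteIndexNormalSubgroup.mp h (E u) hu'
  have : Finite (FreeGroup (Fin n) ⧸ K.toSubgroup) := Subgroup.finite_quotient_of_finiteIndex
  refine ⟨FreeGroup (Fin n) ⧸ K.toSubgroup, inferInstance, this,
    (QuotientGroup.mk' K.toSubgroup).comp E.toMonoidHom, ?_⟩
  intro h0
  apply hK
  exact (QuotientGroup.eq_one_iff (E u)).1 h0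

/-- The action on the homomorphisms to a finite group. -/
theorem exists_stab {G F P : Type} [Group G] [Group F] [Group P] [Finite (F →* P)]
    (θ : G →* MulAut F) : ∃ N : Subgroup G, N.Normal ∧ N.FiniteIndex ∧
      ∀ n ∈ N, ∀ (f : F →* P) (x : F), f (θ n x) = f x := by
  let Λ : G →* Equiv.Perm (F →* P) :=
    { toFun := fun g =>
        { toFun := fun f => f.comp (θ g⁻¹).toMonoidHom
          invFun := fun f => f.comp (θ g).toMonoidHom
          left_inv := fun f => by
            ext x
            show f (θ g⁻¹ (θ g x)) = f x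
            rw [← MulAut.mul_apply, ← map_mul, inv_mul_cancel, map_one]; rfl
          right_inv := fun f => by
            ext x
            show f (θ g (θ g⁻¹ x)) = f x
            rw [← MulAut.mul_apply, ← map_mul, mul_inv_cancel, map_one]; rfl }
      map_one' := by
        ext f x
        show f (θ (1 : G)⁻¹ x) = f x
        rw [inv_one, map_one]; rfl
      map_mul' := fun g h => by
        ext f x
        show f (θ (g * h)⁻¹ x) = f (θ h⁻¹ (θ g⁻¹ x))
        rw [← MulAut.mul_apply, ← map_mul, mul_inv_rev] }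
  refine ⟨Λ.ker, inferInstance, inferInstance, ?_⟩
  intro n hn f x
  have h1 : Λ n f = f := by
    rw [MonoidHom.mem_ker] at hn
    rw [hn]; rfl
  have h2 := DFunLike.congr_fun h1 (θ n x)
  have h3 : f (θ n⁻¹ (θ n x)) = f (θ n x) := h2
  rw [← h3, ← MulAut.mul_apply, ← map_mul, inv_mul_cancel, map_one]; rfl

open Classical in
/-- The retraction onto the subgroup generated by `Y`. -/
noncomputable def retr {X : Type} (Y : Set X) : FreeGroup X →* FreeGroup X :=
  FreeGroup.lift (fun x => if x ∈ Y then FreeGroup.of x else 1)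

theorem mem_iff_retr {X : Type} (Y : Set X) (u : FreeGroup X) :
    u ∈ Subgroup.closure (FreeGroup.of '' Y) ↔ retr Y u = u := by
  constructor
  · intro hu
    induction hu using Subgroup.closure_induction with
    | mem x hx =>
      obtain ⟨y, hy, rfl⟩ := hx
      simp [retr, hy]
    | one => exact map_one _
    | mul _ _ _ _ h1 h2 => rw [map_mul, h1, h2]
    | inv _ _ h1 => rw [map_inv, h1]
  · intro hu
    have h : ∀ v : FreeGroup X, retr Y v ∈ Subgroup.closure (FreeGroup.of '' Y) := by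
      intro v
      have : (retr Y).range ≤ Subgroup.closure (FreeGroup.of '' Y) := by
        rw [MonoidHom.range_eq_map, ← FreeGroup.closure_range_of, MonoidHom.map_closure,
          Subgroup.closure_le]
        rintro _ ⟨_, ⟨x, rfl⟩, rfl⟩
        by_cases hx : x ∈ Y
        · have e : retr Y (FreeGroup.of x) = FreeGroup.of x := by simp [retr, hx]
          rw [e]
          exact Subgroup.subset_closure ⟨x, hx, rfl⟩
        · have e : retr Y (FreeGroup.of x) = 1 := by simp [retr, hx]
          rw [e]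
          exact Subgroup.one_mem _
      exact this ⟨v, rfl⟩
    rw [← hu]
    exact h u

theorem clg : ClgStmt := by
  intro G X _ _ θ Y f
  have fin : ∀ (P : Type) [Group P] [Finite P], Finite (FreeGroup X →* P) := by
    intro P _ _
    exact H63.finite_hom inferInstance
  refine ⟨?_, ?_, ?_⟩
  · intro z hz
    have hu : θ z f * f⁻¹ ≠ 1 := fun h => hz (mul_inv_eq_one.1 h)
    obtain ⟨P, _, _, f0, hf0⟩ := exists_f _ hu
    have := fin P
    obtain ⟨N, h1, h2, h3⟩ := exists_stab (P := P) θ
    refine ⟨N, h1, h2, ?_⟩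
    intro n hn hmem
    apply hf0
    have h4 : θ (z * n) f = f := hmem
    have h5 := h3 n hn (f0.comp (θ z).toMonoidHom) f
    have h6 : f0 (θ z (θ n f)) = f0 (θ z f) := h5
    rw [← MulAut.mul_apply, ← map_mul, h4] at h6
    rw [map_mul, map_inv, ← h6, mul_inv_cancel]
  · intro z hz
    have hu : retr Y (θ z f) * (θ z f)⁻¹ ≠ 1 := by
      intro h
      exact hz ((mem_iff_retr Y _).2 (mul_inv_eq_one.1 h))
    obtain ⟨P, _, _, f0, hf0⟩ := exists_f _ hu
    have := fin P
    obtain ⟨N, h1, h2, h3⟩ := exists_stab (P := P) θ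
    refine ⟨N, h1, h2, ?_⟩
    intro n hn hmem
    apply hf0
    have h4 : retr Y (θ (z * n) f) = θ (z * n) f := (mem_iff_retr Y _).1 hmem
    rw [map_mul, MulAut.mul_apply] at h4
    have h5 : f0 (retr Y (θ z (θ n f))) = f0 (retr Y (θ z f)) :=
      h3 n hn ((f0.comp (retr Y)).comp (θ z).toMonoidHom) f
    have h6 : f0 (θ z (θ n f)) = f0 (θ z f) := h3 n hn (f0.comp (θ z).toMonoidHom) f
    rw [map_mul, map_inv, ← h5, ← h6, h4, mul_inv_cancel]
  · intro z hz
    have hu : retr Y ((θ z)⁻¹ f) * ((θ z)⁻¹ f)⁻¹ ≠ 1 := by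
      intro h
      exact hz ((mem_iff_retr Y _).2 (mul_inv_eq_one.1 h))
    obtain ⟨P, _, _, f0, hf0⟩ := exists_f _ hu
    have := fin P
    obtain ⟨N, h1, h2, h3⟩ := exists_stab (P := P) θ
    refine ⟨N, h1, h2, ?_⟩
    intro n hn hmem
    apply hf0
    have h4 : retr Y ((θ (z * n))⁻¹ f) = (θ (z * n))⁻¹ f := (mem_iff_retr Y _).1 hmem
    rw [map_mul, mul_inv_rev, MulAut.mul_apply, ← map_inv θ n] at h4
    have h5 : f0 (retr Y (θ n⁻¹ ((θ z)⁻¹ f))) = f0 (retr Y ((θ z)⁻¹ f)) :=
      h3 n⁻¹ (N.inv_mem hn) (f0.comp (retr Y)) ((θ z)⁻¹ f)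
    have h6 : f0 (θ n⁻¹ ((θ z)⁻¹ f)) = f0 ((θ z)⁻¹ f) := h3 n⁻¹ (N.inv_mem hn) f0 ((θ z)⁻¹ f)
    rw [map_mul, map_inv, ← h5, ← h6, h4, mul_inv_cancel]

end Unf
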