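import Pool.Agent.Helper12_UNF.Path

set_option autoImplicit false

/-! # Squad UNF: DPR, products of detectors -/

namespace Unf

open Art

theorem gen_comm {S : Type} (M : CoxeterMatrix S) (s t : S) (h : M.M s t = 2) :
    Commute (gen M s) (gen M t) := by
  have := relHolds M s t (by rw [h]; norm_num)
  rw [h, alt_two, alt_two] at this
  exact this

theorem P_comm {S : Type} (M : CoxeterMatrix S) (A B : Set S)
    (h : ∀ s ∈ A, ∀ t ∈ B, M.M s t = 2) : ∀ x ∈ P M A, ∀ y ∈ P M B, Commute x y := by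
  intro x hx y hy
  induction hx using Subgroup.closure_induction with
  | mem x hx =>
    obtain ⟨s, hs, rfl⟩ := hx
    induction hy using Subgroup.closure_induction with
    | mem y hy =>
      obtain ⟨t, ht, rfl⟩ := hy
      exact gen_comm M s t (h s hs t ht)
    | one => exact Commute.one_right _
    | mul _ _ _ _ h1 h2 => exact h1.mul_right h2
    | inv _ _ h1 => exact h1.inv_right
  | one => exact Commute.one_left _
  | mul _ _ _ _ h1 h2 => exact h1.mul_left h2
  | inv _ _ h1 => exact h1.inv_left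

theorem P_split {S : Type} (M : CoxeterMatrix S) (A B C : Set S)
    (h : ∀ s ∈ A, ∀ t ∈ B, M.M s t = 2) (hC : C ⊆ A ∪ B) :
    ∀ a ∈ P M C, ∃ x ∈ P M A, ∃ y ∈ P M B, a = x * y := by
  have hc := P_comm M A B h
  intro a ha
  induction ha using Subgroup.closure_induction with
  | mem x hx =>
    obtain ⟨s, hs, rfl⟩ := hx
    rcases hC hs with h1 | h1
    · exact ⟨_, gen_mem_P h1, 1, (P M B).one_mem, by rw [mul_one]⟩
    · exact ⟨1, (P M A).one_mem, _, gen_mem_P h1, by rw [one_mul]⟩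
  | one => exact ⟨1, (P M A).one_mem, 1, (P M B).one_mem, by rw [mul_one]⟩
  | mul _ _ _ _ h1 h2 =>
    obtain ⟨x, hx, y, hy, rfl⟩ := h1
    obtain ⟨x', hx', y', hy', rfl⟩ := h2
    refine ⟨x * x', (P M A).mul_mem hx hx', y * y', (P M B).mul_mem hy hy', ?_⟩
    have e := (hc x' hx' y hy).eq
    calc x * y * (x' * y') = x * (y * x') * y' := by group
      _ = x * (x' * y) * y' := by rw [e]
      _ = x * x' * (y * y') := by group
  | inv _ _ h1 =>
    obtain ⟨x, hx, y, hy, rfl⟩ := h1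
    refine ⟨x⁻¹, (P M A).inv_mem hx, y⁻¹, (P M B).inv_mem hy, ?_⟩
    rw [mul_inv_rev]
    exact ((hc x hx y hy).inv_inv).eq.symm

theorem dpr : DprStmt := by
  intro S M C ι b hb h
  choose Sg D h1 h2 h3 h4 h5 h6 using h
  refine ⟨fun s => ⨅ i, Sg i s, fun s t => {x | ∀ i, x ∈ D i s t}, ?_, ?_, ?_, ?_, ?_, ?_⟩
  · intro s t hst hm
    refine ⟨?_, fun i => (h1 i s t hst hm).2⟩
    rw [Subgroup.mem_iInf]
    exact fun i => (h1 i s t hst hm).1
  · intro s t x hx
    refine ⟨fun i => (h2 i s t x (hx i)).1, ?_⟩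
    intro u hu v hv i
    rw [Subgroup.mem_iInf] at hu hv
    exact (h2 i s t x (hx i)).2 u (hu i) v (hv i)
  · intro s z hz
    simp only [SetLike.mem_coe, Subgroup.mem_iInf, not_forall] at hz
    obtain ⟨i, hz⟩ := hz
    obtain ⟨N, hN, hf, hn⟩ := h3 i s z hz
    refine ⟨N, hN, hf, fun n hnN hmem => hn n hnN ?_⟩
    simp only [SetLike.mem_coe, Subgroup.mem_iInf] at hmem
    exact hmem i
  · intro s t hst hm z hz
    simp only [Set.mem_ofPred_eq, not_forall] at hz
    obtain ⟨i, hz⟩ := hz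
    obtain ⟨N, hN, hf, hn⟩ := h4 i s t hst hm z hz
    exact ⟨N, hN, hf, fun n hnN hmem => hn n hnN (hmem i)⟩
  · intro s hs a ha has
    rw [Subgroup.mem_iInf] at has
    obtain ⟨x, hx, y, hy, rfl⟩ := P_split M {t | t ∈ C ∧ b t = b s} {t | t ∈ C ∧ b t ≠ b s} C
      (fun u hu v hv => hb u hu.1 v hv.1 (fun he => hv.2 (he ▸ hu.2)))
      (fun t ht => by
        by_cases h : b t = b s
        · exact Or.inl ⟨ht, h⟩
        · exact Or.inr ⟨ht, h⟩) a ha
    have hy2 : y ∈ Sg (b s) s := by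
      have : P M {t | t ∈ C ∧ b t ≠ b s} ≤ Sg (b s) s := by
        rw [P, Subgroup.closure_le]
        rintro _ ⟨t, ht, rfl⟩
        have hst : s ≠ t := fun he => ht.2 (by rw [he])
        exact (h1 (b s) s t hst (by
          rw [hb s hs t ht.1 (fun he => ht.2 he.symm)]; norm_num)).1
      exact this hy
    have hx2 : x ∈ Sg (b s) s := by
      have := (Sg (b s) s).mul_mem (has (b s)) ((Sg (b s) s).inv_mem hy2)
      rwa [mul_assoc, mul_inv_cancel, mul_one] at this
    have hx3 := h5 (b s) s ⟨hs, rfl⟩ x hx hx2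
    refine (P M _).mul_mem (P_mono ?_ hx3) (P_mono ?_ hy)
    · rintro t ⟨ht, ht2⟩
      exact ⟨ht.1, ht2⟩
    · rintro t ⟨ht, ht2⟩
      exact ⟨ht, fun he => ht2 (by rw [Set.mem_singleton_iff.1 he])⟩
  · intro s hs t ht hst a ha had
    obtain ⟨x, hx, y, hy, rfl⟩ := P_split M {t | t ∈ C ∧ b t = b s} {t | t ∈ C ∧ b t ≠ b s} C
      (fun u hu v hv => hb u hu.1 v hv.1 (fun he => hv.2 (he ▸ hu.2)))
      (fun t ht => by
        by_cases h : b t = b s
        · exact Or.inl ⟨ht, h⟩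
        · exact Or.inr ⟨ht, h⟩) a ha
    by_cases hbt : b t = b s
    · have hy2 : y ∈ Sg (b s) t := by
        have : P M {t | t ∈ C ∧ b t ≠ b s} ≤ Sg (b s) t := by
          rw [P, Subgroup.closure_le]
          rintro _ ⟨u, hu, rfl⟩
          have hut : t ≠ u := fun he => hu.2 (by rw [← he, hbt])
          exact (h1 (b s) t u hut (by
            rw [hb t ht u hu.1 (fun he => hu.2 (by rw [← he, hbt]))]; norm_num)).1
        exact this hy
      have hx2 : x ∈ D (b s) s t := by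
        have := (h2 (b s) s t _ (had (b s))).2 1 (Sg (b s) s).one_mem y⁻¹
          ((Sg (b s) t).inv_mem hy2)
        rwa [one_mul, mul_assoc, mul_inv_cancel, mul_one] at this
      obtain ⟨p, hp, q, hq, e⟩ := h6 (b s) s ⟨hs, rfl⟩ t ⟨ht, hbt⟩ hst x hx hx2
      refine ⟨p, P_mono ?_ hp, q * y, (P M _).mul_mem (P_mono ?_ hq) (P_mono ?_ hy), ?_⟩
      · rintro u ⟨hu, hu2⟩
        exact ⟨hu.1, hu2⟩
      · rintro u ⟨hu, hu2⟩
        exact ⟨hu.1, hu2⟩
      · rintro u ⟨hu, hu2⟩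
        exact ⟨hu, fun he => hu2 (by rw [Set.mem_singleton_iff.1 he, hbt])⟩
      · rw [e, mul_assoc]
    · refine ⟨y, P_mono ?_ hy, x, P_mono ?_ hx, ?_⟩
      · rintro u ⟨hu, hu2⟩
        exact ⟨hu, fun he => hu2 (by rw [Set.mem_singleton_iff.1 he])⟩
      · rintro u ⟨hu, hu2⟩
        exact ⟨hu, fun he => hbt (by rw [← Set.mem_singleton_iff.1 he, hu2])⟩
      · exact (P_comm M _ _ (fun u hu v hv => hb u hu.1 v hv.1 (fun he => hv.2 (he ▸ hu.2)))
          x hx y hy).eq

end Unf
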