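import Pool.Agent.Helper12_UNF.Stmts2

set_option autoImplicit false

/-! # Squad UNF: EVL, evaluation of the twist action -/

namespace Unf

open Art

section words

variable {Q : Type} [Group Q] {N : ℕ}

/-- Products of initial segments. -/
def pp (f : Fin N → Q) (r : ℕ) : Q := (((List.finRange N).take r).map f).prod

theorem pp_zero (f : Fin N → Q) : pp f 0 = 1 := by simp [pp]

theorem pp_succ (f : Fin N → Q) {r : ℕ} (h : r < N) : pp f (r + 1) = pp f r * f ⟨r, h⟩ := by
  unfold pp
  have h1 : r < (List.finRange N).length := by rw [List.length_finRange]; exact h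
  have h2 : (List.finRange N).take (r + 1) = (List.finRange N).take r ++ [⟨r, h⟩] := by
    rw [← List.take_append_getElem h1]
    congr 1
    simp
  rw [h2, List.map_append, List.prod_append]
  simp

theorem pp_rotate (f : Fin N → Q) {r : ℕ} (h : r ≤ N) :
    (((List.finRange N).rotate r).map f).prod = (pp f r)⁻¹ * pp f N * pp f r := by
  have h1 : (List.finRange N).rotate r = (List.finRange N).drop r ++ (List.finRange N).take r :=
    List.rotate_eq_drop_append_take (by rw [List.length_finRange]; exact h)
  have h2 : pp f N = pp f r * (((List.finRange N).drop r).map f).prod := by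
    unfold pp
    rw [← List.prod_append, ← List.map_append, List.take_append_drop]
    congr 2
    exact List.take_of_length_le (by rw [List.length_finRange])
  rw [h1, List.map_append, List.prod_append, h2]
  unfold pp
  group

theorem pp_two (f : Fin N → Q) (a : ℕ) (ha : a + 1 < N)
    (hf : ∀ j : Fin N, j.1 ≠ a → j.1 ≠ a + 1 → f j = 1) :
    (∀ r, r ≤ a → pp f r = 1) ∧
    (∀ r, a + 2 ≤ r → r ≤ N → pp f r = f ⟨a, by omega⟩ * f ⟨a + 1, ha⟩) := by
  have h1 : ∀ r, r ≤ a → pp f r = 1 := by
    intro r
    induction r with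
    | zero => intro _; exact pp_zero f
    | succ r ih =>
      intro hr
      rw [pp_succ f (by omega), ih (by omega), one_mul]
      exact hf _ (by show r ≠ a; omega) (by show r ≠ a + 1; omega)
  refine ⟨h1, ?_⟩
  intro r
  induction r with
  | zero => intro h; omega
  | succ r ih =>
    intro hr hN
    by_cases h : r = a + 1
    · subst h
      rw [pp_succ f (by omega), pp_succ f (by omega), h1 a le_rfl, one_mul]
    · rw [pp_succ f (by omega), ih (by omega) (by omega),
        hf ⟨r, by omega⟩ (by show r ≠ a; omega) (by show r ≠ a + 1; omega), mul_one]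

end words

theorem pre_eq_pp (k j : ℕ) : pre k j = pp (ox : Fin k → O k) j := rfl

theorem pre_succ' {k j : ℕ} (h : j < k) : pre k (j + 1) = pre k j * ox ⟨j, h⟩ := by
  rw [pre_eq_pp, pre_eq_pp, pp_succ _ h]

theorem ox_sq {k : ℕ} (i : Fin k) : ox i * ox i = 1 :=
  (Om k).toCoxeterSystem.simple_mul_simple_self i

theorem ox_inv {k : ℕ} (i : Fin k) : (ox i)⁻¹ = ox i := inv_eq_of_mul_eq_one_left (ox_sq i)

section act

variable {n : ℕ} {Ψ : Gp (CoxeterMatrix.A n) →* MulAut (O (n + 1))} (hΨ : IsArt n Ψ)

include hΨ

theorem act_pre_lt (i : Fin n) (j : ℕ) (h : j ≤ i.1) :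
    Ψ (gen _ i) (pre (n + 1) j) = pre (n + 1) j := by
  induction j with
  | zero => rw [pre_eq_pp, pp_zero, map_one]
  | succ j ih =>
    have hj : j < n + 1 := by have := i.2; omega
    rw [pre_succ' hj, map_mul, ih (by omega), (hΨ i).2.2 ⟨j, hj⟩]
    · intro e
      have := congrArg Fin.val e
      simp only [Fin.val_castSucc] at this
      omega
    · intro e
      have := congrArg Fin.val e
      simp only [Fin.val_succ] at this
      omega

theorem act_pre_eq (i : Fin n) :
    Ψ (gen _ i) (pre (n + 1) (i.1 + 1)) =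
      pre (n + 1) (i.1 + 1) * (ox i.castSucc * ox i.succ)⁻¹ := by
  have h1 : i.1 < n + 1 := by have := i.2; omega
  have e : (⟨i.1, h1⟩ : Fin (n + 1)) = i.castSucc := rfl
  rw [pre_succ' h1, map_mul, act_pre_lt hΨ i i.1 le_rfl, e, (hΨ i).1, mul_inv_rev, ox_inv, ox_inv,
    mul_assoc, mul_assoc]

theorem act_pre_gt (i : Fin n) (j : ℕ) (h : i.1 + 2 ≤ j) (hj : j ≤ n + 1) :
    Ψ (gen _ i) (pre (n + 1) j) = pre (n + 1) j := by
  induction j with
  | zero => omega
  | succ j ih =>
    by_cases hc : j = i.1 + 1
    · subst hc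
      have h1 : i.1 + 1 < n + 1 := by have := i.2; omega
      have e : (⟨i.1 + 1, h1⟩ : Fin (n + 1)) = i.succ := rfl
      rw [pre_succ' h1, map_mul, act_pre_eq hΨ, e, (hΨ i).2.1, mul_inv_rev, ox_inv, ox_inv]
      rw [mul_assoc, mul_assoc, ox_sq, mul_one]
    · have hj2 : j < n + 1 := by omega
      rw [pre_succ' hj2, map_mul, ih (by omega) (by omega), (hΨ i).2.2 ⟨j, hj2⟩]
      · intro e
        have := congrArg Fin.val e
        simp only [Fin.val_castSucc] at this
        omega
      · intro e
        have := congrArg Fin.val e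
        simp only [Fin.val_succ] at this
        omega

theorem act_pre_ne (i : Fin n) (j : ℕ) (hj : j ≤ n + 1) (h : j ≠ i.1 + 1) :
    Ψ (gen _ i) (pre (n + 1) j) = pre (n + 1) j := by
  rcases Nat.lt_or_ge j (i.1 + 1) with h1 | h1
  · exact act_pre_lt hΨ i j (by omega)
  · exact act_pre_gt hΨ i j (by omega) hj

end act

open Classical in
/-- The values on the generators. -/
noncomputable def evf (N n : ℕ) (adj : Fin N → Fin N → Prop) : Xg N → O (n + 1)
  | Sum.inl (i, j) =>
    if i.1 < n then
      if j.1 = i.1 then (pre (n + 1) i.1)⁻¹ else if j.1 = i.1 + 1 then pre (n + 1) (i.1 + 2)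
        else 1
    else if ∃ k : Fin N, k.1 < n ∧ adj k i ∧ j = k.succ then (pre (n + 1) j.1)⁻¹ else 1
  | Sum.inr i => if i.1 < n then (pre (n + 1) (i.1 + 1))⁻¹ else 1

theorem evl : EvlStmt := by
  classical
  intro N n hn adj T Φ hP Ψ hΨ
  set ev : FreeGroup (Xg N) →* O (n + 1) := FreeGroup.lift (evf N n adj) with hev
  have ev_e : ∀ (i : Fin N) (j : Fin (N + 1)), i.1 < n → ev (eg i j) =
      if j.1 = i.1 then (pre (n + 1) i.1)⁻¹ else if j.1 = i.1 + 1 then pre (n + 1) (i.1 + 2)
        else 1 := by
    intro i j hi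
    rw [hev, eg, FreeGroup.lift_apply_of]
    exact if_pos hi
  have ev_e2 : ∀ (i : Fin N) (j : Fin (N + 1)), ¬ i.1 < n → ev (eg i j) =
      if ∃ k : Fin N, k.1 < n ∧ adj k i ∧ j = k.succ then (pre (n + 1) j.1)⁻¹ else 1 := by
    intro i j hi
    rw [hev, eg, FreeGroup.lift_apply_of]
    exact if_neg hi
  have ev_h : ∀ i : Fin N, i.1 < n → ev (hg i) = (pre (n + 1) (i.1 + 1))⁻¹ := by
    intro i hi
    rw [hev, hg, FreeGroup.lift_apply_of]
    exact if_pos hi
  have ev_h2 : ∀ i : Fin N, ¬ i.1 < n → ev (hg i) = 1 := by
    intro i hi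
    rw [hev, hg, FreeGroup.lift_apply_of]
    exact if_neg hi
  refine ⟨ev, ev_e, ev_h, ?_⟩
  -- the curves
  have ev_c : ∀ (i : Fin n) (r : ℕ), r ≤ N → r ≠ i.1 + 1 →
      ev (cyc (Fin.castLE hn i) r) = ox i.castSucc * ox i.succ := by
    intro i r hr hri
    have hi := i.2
    have h1 : ev (cyc (Fin.castLE hn i) r) =
        (((List.finRange (N + 1)).rotate r).map (fun j => ev (eg (Fin.castLE hn i) j))).prod := by
      unfold cyc
      rw [map_list_prod, List.map_map]
      rfl
    have hv : ∀ j : Fin (N + 1), ev (eg (Fin.castLE hn i) j) =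
        if j.1 = i.1 then (pre (n + 1) i.1)⁻¹ else if j.1 = i.1 + 1 then pre (n + 1) (i.1 + 2)
          else 1 := fun j => ev_e (Fin.castLE hn i) j hi
    obtain ⟨h2, h3⟩ := pp_two (fun j => ev (eg (Fin.castLE hn i) j)) i.1
      (by omega) (by
        intro j hj1 hj2
        show ev (eg (Fin.castLE hn i) j) = 1
        rw [hv, if_neg hj1, if_neg hj2])
    have h4 : (fun j => ev (eg (Fin.castLE hn i) j)) (⟨i.1, by omega⟩ : Fin (N + 1)) *
        (fun j => ev (eg (Fin.castLE hn i) j)) (⟨i.1 + 1, by omega⟩ : Fin (N + 1)) =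
        ox i.castSucc * ox i.succ := by
      show ev (eg (Fin.castLE hn i) ⟨i.1, _⟩) * ev (eg (Fin.castLE hn i) ⟨i.1 + 1, _⟩) = _
      rw [hv, hv, if_pos rfl, if_neg (by show i.1 + 1 ≠ i.1; omega), if_pos rfl]
      have e1 : (⟨i.1, by omega⟩ : Fin (n + 1)) = i.castSucc := rfl
      have e2 : (⟨i.1 + 1, by omega⟩ : Fin (n + 1)) = i.succ := rfl
      rw [pre_succ' (show i.1 + 1 < n + 1 by omega), pre_succ' (show i.1 < n + 1 by omega), e1, e2]
      group
    rw [h1, pp_rotate _ (by omega : r ≤ N + 1), h3 (N + 1) (by omega) le_rfl, h4]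
    rcases Nat.lt_or_ge r (i.1 + 1) with h5 | h5
    · rw [h2 r (by omega), inv_one, one_mul, mul_one]
    · rw [h3 r (by omega) (by omega), h4]
      group
  -- the generators
  have key : ∀ (i : Fin n) (f : FreeGroup (Xg N)),
      ev (Φ (gen _ i) f) = Ψ (gen _ i) (ev f) := by
    intro i
    have hi := i.2
    set I : Fin N := Fin.castLE hn i with hI
    have hIv : I.1 = i.1 := rfl
    have e : ev.comp (Φ (gen _ i)).toMonoidHom = (Ψ (gen _ i)).toMonoidHom.comp ev := by
      apply FreeGroup.ext_hom
      rintro (⟨t, j⟩ | t)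
      · show ev (Φ (gen _ i) (eg t j)) = Ψ (gen _ i) (ev (eg t j))
        rw [hP.act]
        have hact := act_pre_eq hΨ i
        have hact' : Ψ (gen _ i) (pre (n + 1) (i.1 + 1))⁻¹ =
            (ox i.castSucc * ox i.succ) * (pre (n + 1) (i.1 + 1))⁻¹ := by
          rw [map_inv, hact, mul_inv_rev, inv_inv]
        by_cases c1 : adj I t ∧ I < t ∧ j = I.succ
        · obtain ⟨ha, hlt, rfl⟩ := c1
          have hlt' : i.1 < t.1 := hlt
          rw [hP.tw.out I t ha hlt, map_mul, ev_c i (t.1 + 1) (by have := t.2; omega) (by omega)]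
          have hval : ev (eg t I.succ) = (pre (n + 1) (i.1 + 1))⁻¹ := by
            by_cases ht : t.1 < n
            · have h1 := (hP.path I t hi ht).1 ha
              rw [ev_e t _ ht]
              have h2 : t.1 = i.1 + 1 := by
                rcases h1 with h1 | h1
                · exact h1.symm
                · exfalso
                  omega
              have h3 : (I.succ).1 = t.1 := by rw [Fin.val_succ, h2]; rfl
              rw [if_pos h3, h2]
            · rw [ev_e2 t _ ht, if_pos ⟨I, hi, ha, rfl⟩]
              rfl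
          rw [hval, hact']
        · by_cases c2 : adj I t ∧ t < I ∧ j = I.castSucc
          · obtain ⟨ha, hlt, rfl⟩ := c2
            have hlt' : t.1 < i.1 := hlt
            rw [hP.tw.inn I t ha hlt, map_mul, map_inv,
              ev_c i (t.1 + 1) (by have := t.2; omega) (by omega)]
            have ht : t.1 < n := by omega
            have h1 := (hP.path I t hi ht).1 ha
            have h2 : i.1 = t.1 + 1 := by
              rcases h1 with h1 | h1
              · exfalso
                omega
              · exact h1.symm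
            have hval : ev (eg t I.castSucc) = pre (n + 1) (i.1 + 1) := by
              rw [ev_e t _ ht, if_neg (by show i.1 ≠ t.1; omega), if_pos (by show i.1 = t.1 + 1; omega)]
              congr 1
              omega
            rw [hval, hact]
          · rw [hP.tw.e_fix I t j c1 c2]
            by_cases ht : t.1 < n
            · rw [ev_e t j ht]
              by_cases hj1 : j.1 = t.1
              · rw [if_pos hj1, map_inv, act_pre_ne hΨ i t.1 (by omega)]
                intro hcon
                apply c1
                refine ⟨(hP.path I t hi ht).2 (Or.inl hcon.symm), ?_, ?_⟩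
                · show i.1 < t.1; omega
                · apply Fin.ext; rw [Fin.val_succ]; show j.1 = i.1 + 1; omega
              · rw [if_neg hj1]
                by_cases hj2 : j.1 = t.1 + 1
                · rw [if_pos hj2, act_pre_ne hΨ i (t.1 + 2) (by omega)]
                  intro hcon
                  apply c2
                  refine ⟨(hP.path I t hi ht).2 (Or.inr ?_), ?_, ?_⟩
                  · show t.1 + 1 = i.1; omega
                  · show t.1 < i.1; omega
                  · apply Fin.ext; show j.1 = i.1; omega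
                · rw [if_neg hj2, map_one]
            · rw [ev_e2 t j ht]
              by_cases hk : ∃ k : Fin N, k.1 < n ∧ adj k t ∧ j = k.succ
              · rw [if_pos hk]
                obtain ⟨k, hk1, hk2, rfl⟩ := hk
                rw [map_inv, Fin.val_succ, act_pre_ne hΨ i (k.1 + 1) (by omega)]
                intro hcon
                apply c1
                have hkI : k = I := by apply Fin.ext; show k.1 = i.1; omega
                subst hkI
                exact ⟨hk2, by show i.1 < t.1; omega, rfl⟩
              · rw [if_neg hk, map_one]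
      · show ev (Φ (gen _ i) (hg t)) = Ψ (gen _ i) (ev (hg t))
        rw [hP.act]
        by_cases hti : t = I
        · rw [hti, hP.tw.hh I, map_mul, ev_c i 0 (by omega) (by omega), ev_h I hi]
          show _ = Ψ (gen _ i) (pre (n + 1) (i.1 + 1))⁻¹
          rw [map_inv, act_pre_eq hΨ i, mul_inv_rev, inv_inv]
          rfl
        · rw [hP.tw.h_fix I t hti]
          by_cases ht : t.1 < n
          · rw [ev_h t ht, map_inv, act_pre_ne hΨ i (t.1 + 1) (by omega)]
            intro hcon
            apply hti
            apply Fin.ext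
            show t.1 = i.1
            omega
          · rw [ev_h2 t ht, map_one]
    intro f
    exact DFunLike.congr_fun e f
  intro a
  have ha : a ∈ Subgroup.closure (Set.range (gen (CoxeterMatrix.A n))) := by
    rw [closure_gen]; trivial
  induction ha using Subgroup.closure_induction with
  | mem x hx =>
    obtain ⟨i, rfl⟩ := hx
    exact key i
  | one => intro f; rw [map_one, map_one]; rfl
  | mul x y _ _ hx hy =>
    intro f
    rw [map_mul, map_mul, MulAut.mul_apply, MulAut.mul_apply, hx, hy]
  | inv x _ hx =>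
    intro f
    have h1 := hx ((Φ x)⁻¹ f)
    rw [← MulAut.mul_apply, mul_inv_cancel] at h1
    rw [map_inv, map_inv]
    have h2 : (Ψ x)⁻¹ (Ψ x (ev ((Φ x)⁻¹ f))) = ev ((Φ x)⁻¹ f) := by
      rw [← MulAut.mul_apply, inv_mul_cancel]; rfl
    rw [← h2, ← h1]
    rfl

end Unf
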