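import Pool.Agent.Helper12_UNF.Fin
import Pool.Agent.Helper65_UNF.Clo

set_option autoImplicit false

/-! # Squad UNF: coloured cliques and the main theorem -/

namespace Unf

open Art

/-- The clique `C` is coloured faithfully in `N`: there is a homomorphism of Artin groups which
maps every generator to a generator or to `1`, it is injective and label preserving on `C`, and no
generator joined to `s ∈ C` by a finite label has the same image as `s`. -/
def Coloured {S T : Type} (M : CoxeterMatrix S) (C : Set S) (N : CoxeterMatrix T) : Prop :=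
  ∃ (θ : Gp M →* Gp N) (f : S → Option T),
    (∀ s, θ (gen M s) = (f s).elim 1 (gen N)) ∧
    (∀ s ∈ C, ∃ s', f s = some s') ∧
    (∀ s ∈ C, ∀ t ∈ C, ∀ s' t', f s = some s' → f t = some t' → N.M s' t' = M.M s t) ∧
    (∀ s ∈ C, ∀ t, t ≠ s → M.M s t ≠ 0 → f t ≠ f s)

/-- The allowed irreducible pieces of the cliques. -/
def Piece {S : Type} (M : CoxeterMatrix S) (C : Set S) : Prop :=
  (∃ n, IsoTo (res M C) (CoxeterMatrix.A n)) ∨
  (∃ n, IsoTo (res M C) (CoxeterMatrix.B n)) ∨
  (∃ m, IsoTo (res M C) (CoxeterMatrix.I m)) ∨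
  (∃ (T : Type) (_ : Finite T) (N : CoxeterMatrix T),
    (Classical N ∨ (Finite N.Group ∧ RF (Gp N))) ∧ Coloured M C N) ∨
  (∃ n, 3 ≤ n ∧ Coloured M C (H65.At n))

theorem Coloured.det (col : ColStmt) {S T : Type} [Finite S] [Finite T] {M : CoxeterMatrix S}
    {C : Set S} {N : CoxeterMatrix T} (h : Coloured M C N)
    (hN : ∀ x y : T, ClosedMul (P N {z | z ≠ x}) (P N {z | z ≠ y}))
    (hC : Clique M C) : Det M C := by
  obtain ⟨θ, f, h1, h2, h3, h4⟩ := h
  refine col M C N θ f h1 ?_ ?_ hN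
  · intro s hs t ht hst s' t' hs' ht'
    refine ⟨?_, h3 s hs t ht s' t' hs' ht'⟩
    intro he
    apply h4 s hs t (Ne.symm hst) (hC s hs t ht hst)
    rw [hs', ht', he]
  · intro s hs
    refine ⟨?_, h4 s hs⟩
    obtain ⟨s', hs'⟩ := h2 s hs
    rw [hs']
    exact Option.some_ne_none s'

/-- The main theorem from the modules. -/
theorem main (fin : FinStmt) (col : ColStmt) (clo : CloStmt) (cla : ClaStmt) {S : Type} [Finite S]
    (M : CoxeterMatrix S)
    (h : ∀ C : Set S, Clique M C → ∃ C', C ⊆ C' ∧ Clique M C' ∧ ∃ (ι : Type) (b : S → ι),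
      (∀ s ∈ C', ∀ t ∈ C', b s ≠ b t → M.M s t = 2) ∧
      ∀ i, Piece M {s | s ∈ C' ∧ b s = i}) : RF (Gp M) := by
  apply fin M
  intro C hC
  obtain ⟨C', h1, hC', ι, b, h2, h3⟩ := h C hC
  refine ⟨C', h1, ι, b, h2, ?_⟩
  intro i
  have hcl : Clique M {s | s ∈ C' ∧ b s = i} := fun s hs t ht hst => hC' s hs.1 t ht.1 hst
  rcases h3 i with h | h | h | ⟨T, hT, N, hN, hc⟩ | ⟨n, hn, hc⟩
  · exact Or.inl h
  · exact Or.inr (Or.inl h)
  · exact Or.inr (Or.inr (Or.inl h))
  · refine Or.inr (Or.inr (Or.inr ?_))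
    have hN' : Finite N.Group ∧ RF (Gp N) := by
      rcases hN with hN | hN
      · exact cla N hN
      · exact hN
    exact hc.det col (fun x y => clo N hN'.1 hN'.2 _ _) hcl
  · refine Or.inr (Or.inr (Or.inr ?_))
    have : NeZero n := ⟨by omega⟩
    exact hc.det col (fun x y => H65.affA n hn x y) hcl

end Unf
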