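import Pool.Agent.Helper12_UNF.All2
import Pool.Agent.Helper12_UNF.Main
import Pool.Agent.Helper12_UNF.Dpr
import Pool.Agent.Helper12_UNF.Clg
import Pool.Agent.Helper12_UNF.Evl
import Pool.Agent.Helper39_UNF.Dsb
import Pool.Agent.Helper39_UNF.Bfd
import Pool.Agent.Helper39_UNF.Gev
import Pool.Agent.Helper81_UNF.Brb
import Pool.Agent.Helper33_UNF.Bst
import Pool.Agent.Helper33_UNF.Brd
import Pool.Agent.Helper93_UNF.FNA
import Pool.Agent.Helper21_UNF.Fin
import Pool.Agent.Helper99_UNF.Fni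
import Pool.Agent.Helper99_UNF.Cf4
import Pool.Agent.Helper27_UNF.Fnp
import Pool.Agent.Helper27_UNF.I2f
import Pool.Agent.Helper47_UNF.Cla
import Pool.Agent.Helper47_UNF.Geo
import Pool.Agent.Helper37_UNF.Nfo
import Pool.Agent.Helper37_UNF.Loc
import Pool.Agent.Helper6_UNF.Oac
import Pool.Agent.Helper6_UNF.Rdc
import Pool.Agent.Helper4_UNF.Ord
import Pool.Agent.Helper4_UNF.Mor
import Pool.Agent.Helper63_UNF.Hln
import Pool.Agent.Helper63_UNF.Irr
import Pool.Agent.Helper40_UNF.Hta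
import Pool.Agent.Helper40_UNF.Thk
import Pool.Agent.Helper88_UNF.Twi
import Pool.Agent.Helper88_UNF.Pth
import Pool.Agent.Helper9_UNF.Gau
import Pool.Agent.Helper50_UNF.Dta
import Pool.Agent.Helper50_UNF.Dtb
import Pool.Agent.Helper31_UNF.Dti

set_option autoImplicit false

/-! # Squad UNF: assembly of the main theorem -/

namespace Unf

open Art

theorem allCla : ClaStmt :=
  H47.cla H81.brb H33.Bst.bst H33.brd H93.fNA (H21.fnb H93.fNA) (H21.fnd H93.fNA) H99.fni
    H27.fnp H27.rfp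

theorem allHln : HlnStmt := H63.hln H37.nfo

theorem allMor : MorStmt := H4.mor allHln (H99.cf4 (H4.ord H37.nfo) H37.nfo)

theorem allHta : HtaStmt := H40.hta allMor (H6.rdc allHln) (H63.irr H37.nfo)

theorem allThk : ThkStmt := H40.thk H88.pth

theorem allGeo : GeoStmt := H47.geo clg

theorem allGev : GevStmt := H39.gev evl gau

theorem allDta : DtaStmt := H50.dta H88.twi allThk allGeo H37.loc allGev allHta H6.oac

theorem allDtb : DtbStmt :=
  H50.dtb H88.twi allThk allGeo H37.loc allGev allHta H6.oac H39.bfd H33.Bst.bst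

theorem allDti : DtiStmt :=
  H31.dti H88.twi allThk allGeo H37.loc allGev allHta H6.oac H27.i2f

theorem allFin : FinStmt := fin dpr (H39.dsb allAdc) unf allDta allDtb allDti

theorem allMain {S : Type} [Finite S] (M : CoxeterMatrix S)
    (h : ∀ C : Set S, Clique M C → ∃ C', C ⊆ C' ∧ Clique M C' ∧ ∃ (ι : Type) (b : S → ι),
      (∀ s ∈ C', ∀ t ∈ C', b s ≠ b t → M.M s t = 2) ∧
      ∀ i, Piece M {s | s ∈ C' ∧ b s = i}) : RF (Gp M) :=
  main allFin allCol allClo allCla M h

end Unf
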