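import Pool.Agent.Helper12_UNF.Stmts

set_option autoImplicit false

/-! # Squad UNF: QUO and DPR -/

namespace Unf

open Art

theorem alt_of_pow {G : Type} [Group G] (a b : G) (ha : a * a = 1) (hb : b * b = 1) (m : ℕ)
    (h : (a * b) ^ m = 1) : alt m a b = alt m b a := by
  have ha' : a⁻¹ = a := inv_eq_of_mul_eq_one_left ha
  have hb' : b⁻¹ = b := inv_eq_of_mul_eq_one_left hb
  have hba : b * a = (a * b)⁻¹ := by rw [mul_inv_rev, ha', hb']
  rcases Nat.even_or_odd' m with ⟨k, hk | hk⟩
  · subst hk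
    rw [alt_two_mul, alt_two_mul, hba, inv_pow, eq_inv_iff_mul_eq_one, ← pow_add, ← two_mul]
    exact h
  · subst hk
    rw [alt_two_mul_add_one, alt_two_mul_add_one, hba, inv_pow, eq_inv_mul_iff_mul_eq,
      ← mul_assoc, ← pow_add, ← two_mul]
    have : (a * b) ^ (2 * k) * a * b = 1 := by
      rw [mul_assoc, ← pow_succ]
      exact h
    calc (a * b) ^ (2 * k) * a = (a * b) ^ (2 * k) * a * (b * b) := by rw [hb, mul_one]
      _ = ((a * b) ^ (2 * k) * a * b) * b := by group
      _ = b := by rw [this, one_mul]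

theorem quo : QuoStmt := by
  intro S M
  refine Art.lift M (fun s => M.simple s) ?_
  intro s t _
  have hs : ∀ s, M.simple s * M.simple s = 1 := fun s =>
    M.toCoxeterSystem.simple_mul_simple_self s
  exact alt_of_pow _ _ (hs s) (hs t) _ (M.toCoxeterSystem.simple_mul_simple_pow s t)

end Unf
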