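import Pool.Agent.Helper12_UNF.Unf
import Pool.Agent.Helper12_UNF.Quo
import Pool.Agent.Helper58_UNF.Chr
import Pool.Agent.Helper75_UNF.Deo
import Pool.Agent.Helper7_UNF.Prj
import Pool.Agent.Helper63_UNF.Coc
import Pool.Agent.Helper63_UNF.Reda
import Pool.Agent.Helper34_UNF.Rtr
import Pool.Agent.Helper34_UNF.Win
import Pool.Agent.Helper79_UNF.Wdc
import Pool.Agent.Helper11_UNF.ADC
import Pool.Agent.Helper81_UNF.Inj
import Pool.Agent.Helper48_UNF.Col
import Pool.Agent.Helper48_UNF.Clo
import Pool.Agent.Helper93_UNF.REDB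

set_option autoImplicit false

/-! # Squad UNF: assembly of parts A-C -/

namespace Unf

theorem allProj : PrjStmt := H7.prj H58.dec H75.deo H58.chr

theorem allCoc : CocStmt := H63.coc allProj

theorem allRtr : RtrStmt := H34.rtr allCoc

theorem allAdc : AdcStmt := H11.adc (H34.win H58.chr) (H79.wdc H58.dec H58.chr) allRtr quo

theorem allVdl : VdlStmt := H79.vdl allCoc quo

theorem allCol : ColStmt := H48.col (H81.inj allVdl) allAdc

theorem allClo : CloStmt := H48.clo allRtr quo

theorem allReda : RedaStmt := H63.reda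

theorem allRedb : RedbStmt := H93.rEDB unf allCol

end Unf
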