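import Pool.Agent.Helper12_UNF.Stmts2

set_option autoImplicit false

/-! # Squad UNF: the main theorem from its modules -/

namespace Unf

open Art

/-- A single generator is of type `A 1`. -/
theorem isoTo_singleton {S : Type} (M : CoxeterMatrix S) (s : S) :
    IsoTo (res M {s}) (CoxeterMatrix.A 1) := by
  have u : Unique ({s} : Set S) := Set.uniqueSingleton s
  refine ⟨Equiv.ofUnique _ _, ?_⟩
  intro x y
  have hxy : x = y := Subsingleton.elim x y
  subst hxy
  rw [(res M {s}).diagonal x, (CoxeterMatrix.A 1).diagonal]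

theorem fin (dpr : DprStmt) (dsb : DsbStmt) (unf : UnfStmt) (dta : DtaStmt) (dtb : DtbStmt)
    (dti : DtiStmt) : FinStmt := by
  intro S _ M h
  apply unf
  intro C hC
  obtain ⟨C', hCC', ι, b, h1, h2⟩ := h C hC
  apply dsb M C' C hCC'
  apply dpr M C' b h1
  intro i
  rcases h2 i with ⟨n, h⟩ | ⟨n, h⟩ | ⟨m, h⟩ | h
  · exact dta M _ n h
  · exact dtb M _ n h
  · rcases Nat.eq_zero_or_pos m with hm | hm
    · subst hm
      obtain ⟨e, he⟩ := h
      apply dpr M _ (id : S → S)
      · intro s hs t ht hst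
        have h3 := he ⟨s, hs⟩ ⟨t, ht⟩
        have h4 : e ⟨s, hs⟩ ≠ e ⟨t, ht⟩ := by
          intro h5
          exact hst (congrArg Subtype.val (e.injective h5))
        have h5 : (CoxeterMatrix.I 0).M (e ⟨s, hs⟩) (e ⟨t, ht⟩) = 2 := by
          show (if e ⟨s, hs⟩ = e ⟨t, ht⟩ then 1 else 0 + 2) = 2
          rw [if_neg h4]
        rw [h5] at h3
        exact h3
      · intro s
        apply dsb M {s} _ _ (dta M {s} 1 (isoTo_singleton M s))
        rintro t ⟨_, ht⟩
        exact ht
    · exact dti M _ m hm h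
  · exact h

end Unf
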