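import Pool.Agent.Helper12_UNF.All2

set_option autoImplicit false

/-!
# Reduction of the residual finiteness of all Artin groups to matrices with finite labels

A label `0` of the Coxeter matrix stands for infinity.
-/

namespace Pool.Agent.Results.MP_61f49c_al.FiniteLabels

/-- The Artin group of a Coxeter matrix (`0` stands for infinity). -/
abbrev Artin {S : Type} (M : CoxeterMatrix S) : Type :=
  PresentedGroup
    {r : FreeGroup S | ∃ i j : S, M.M i j ≠ 0 ∧
      r = ((List.range (M.M i j)).map
              (fun k => if Even k then FreeGroup.of i else FreeGroup.of j)).prod *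
          (((List.range (M.M i j)).map
              (fun k => if Even k then FreeGroup.of j else FreeGroup.of i)).prod)⁻¹}

/-- The maximal standard parabolic subgroup, generated by all generators except `x`. -/
def Para {S : Type} (M : CoxeterMatrix S) (x : S) : Subgroup (Artin M) :=
  Subgroup.closure {g | ∃ s : S, s ≠ x ∧ g = PresentedGroup.of s}

/-- The product `Para x * Para y` is closed in the profinite topology of the Artin group: it is
an intersection of preimages of subsets of finite quotients. -/
def ProductClosed {S : Type} (M : CoxeterMatrix S) (x y : S) : Prop :=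
  ∀ z : Artin M, (¬ ∃ u ∈ Para M x, ∃ v ∈ Para M y, z = u * v) →
    ∃ N : Subgroup (Artin M), N.Normal ∧ N.FiniteIndex ∧
      ¬ ∃ u ∈ Para M x, ∃ v ∈ Para M y, ∃ n ∈ N, z = u * v * n

/-- Residual finiteness. -/
def IsRF (G : Type) [Group G] : Prop :=
  ∀ g : G, g ≠ 1 → ∃ K : Subgroup G, K.Normal ∧ K.FiniteIndex ∧ g ∉ K

/-- Virtual residual finiteness. -/
def IsVirtuallyRF (G : Type) [Group G] : Prop :=
  ∃ H : Subgroup G, H.FiniteIndex ∧ IsRF H

theorem isRF_iff {G : Type} [Group G] : IsRF G ↔ Group.ResiduallyFinite G := by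
  constructor
  · intro h
    refine Group.residuallyFinite_iff_exists_finiteIndex.mpr (fun g hg => ?_)
    obtain ⟨K, _, hf, hK⟩ := h g hg
    exact ⟨K, hf, hK⟩
  · intro h g hg
    obtain ⟨H, hH, hgH⟩ := Group.residuallyFinite_iff_exists_finiteIndex.mp h g hg
    exact ⟨H.normalCore, inferInstance, inferInstance, fun hcon => hgH (H.normalCore_le hcon)⟩

theorem IsVirtuallyRF.rf {G : Type} [Group G] (h : IsVirtuallyRF G) : IsRF G := by
  obtain ⟨H, hH, hrf⟩ := h
  rw [isRF_iff]
  refine Group.residuallyFinite_iff_exists_finiteIndex.mpr (fun g hg => ?_)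
  by_cases hgH : g ∈ H
  · obtain ⟨K, _, hK, hgK⟩ := hrf ⟨g, hgH⟩ (fun he => hg (congrArg Subtype.val he))
    refine ⟨K.map H.subtype, ?_, ?_⟩
    · have h1 : (K.map H.subtype).index = K.index * H.index := by
        rw [Subgroup.index_map, Subgroup.ker_subtype, sup_bot_eq, Subgroup.range_subtype]
      exact ⟨by
        rw [h1]
        exact mul_ne_zero hK.index_ne_zero hH.index_ne_zero⟩
    · rintro ⟨k, hk, he⟩
      have he' : k = ⟨g, hgH⟩ := Subtype.ext he
      exact hgK (he' ▸ hk)
  · exact ⟨H, hH, hgH⟩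

theorem IsRF.virt {G : Type} [Group G] (h : IsRF G) : IsVirtuallyRF G := by
  refine ⟨⊤, inferInstance, ?_⟩
  intro g hg
  obtain ⟨K, h1, h2, h3⟩ := h g.1 (fun he => hg (Subtype.ext he))
  refine ⟨K.subgroupOf ⊤, inferInstance, inferInstance, fun h4 => h3 h4⟩

theorem para_eq {S : Type} (M : CoxeterMatrix S) (x : S) : Para M x = Unf.P M {z | z ≠ x} := by
  unfold Para Unf.P
  congr 1
  ext g
  constructor
  · rintro ⟨s, hs, rfl⟩
    exact ⟨s, hs, rfl⟩
  · rintro ⟨s, hs, rfl⟩
    exact ⟨s, hs, rfl⟩

theorem closed_iff {S : Type} (M : CoxeterMatrix S) (x y : S) :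
    ProductClosed M x y ↔ Unf.ClosedMul (Unf.P M {z | z ≠ x}) (Unf.P M {z | z ≠ y}) := by
  unfold ProductClosed Unf.ClosedMul
  rw [para_eq, para_eq]
  constructor
  · intro h z hz
    obtain ⟨N, h1, h2, h3⟩ := h z (by
      rintro ⟨u, hu, v, hv, e⟩
      exact hz u hu v hv e)
    exact ⟨N, h1, h2, fun u hu v hv n hn e => h3 ⟨u, hu, v, hv, n, hn, e⟩⟩
  · intro h z hz
    obtain ⟨N, h1, h2, h3⟩ := h z (fun u hu v hv e => hz ⟨u, hu, v, hv, e⟩)
    exact ⟨N, h1, h2, fun ⟨u, hu, v, hv, n, hn, e⟩ => h3 u hu v hv n hn e⟩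

/-- All Artin groups are virtually residually finite if and only if for all finite Coxeter
matrices without infinite labels the products of two maximal standard parabolic subgroups of the
Artin group are closed in its profinite topology. -/
theorem result :
    (∀ (S : Type) [Finite S] (M : CoxeterMatrix S), IsVirtuallyRF (Artin M)) ↔
    (∀ (S : Type) [Finite S] (M : CoxeterMatrix S), (∀ s t, M.M s t ≠ 0) →
      ∀ x y : S, ProductClosed M x y) := by
  constructor
  · intro h S _ M _ x y
    rw [closed_iff]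
    exact Unf.allReda (fun S _ M => isRF_iff.1 (h S M).rf) S M x y
  · intro h S _ M
    refine IsRF.virt (isRF_iff.2 (Unf.allRedb (fun S _ M hM x y => ?_) S M))
    rw [← closed_iff]
    exact h S M hM x y

end Pool.Agent.Results.MP_61f49c_al.FiniteLabels
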