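import Pool.Agent.Helper12_UNF.Stmts

set_option autoImplicit false

/-! # Squad UNF: paths in the clique complex -/

namespace Unf

open Art

/-- The combined data. -/
structure UD {S : Type} (M : CoxeterMatrix S) where
  Sg : S → Subgroup (Gp M)
  D : S → S → Set (Gp M)
  gmem : ∀ s t, s ≠ t → M.M s t ≠ 0 → gen M t ∈ Sg s
  one_mem : ∀ s t, s ≠ t → M.M s t ≠ 0 → (1 : Gp M) ∈ D s t
  inv_mem : ∀ s t, ∀ x ∈ D s t, x⁻¹ ∈ D t s
  mul_mem : ∀ s t, ∀ x ∈ D s t, ∀ u ∈ Sg s, ∀ v ∈ Sg t, u * x * v ∈ D s t
  closedS : ∀ s, ClosedIn (Sg s : Set (Gp M))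
  closedD : ∀ s t, s ≠ t → M.M s t ≠ 0 → ClosedIn (D s t)
  u4 : ∀ C : Set S, Clique M C → ∀ s ∈ C, ∀ a ∈ P M C, a ∈ Sg s → a ∈ P M (C \ {s})
  u5 : ∀ C : Set S, Clique M C → ∀ s ∈ C, ∀ t ∈ C, s ≠ t → ∀ a ∈ P M C, a ∈ D s t →
      ∃ b ∈ P M (C \ {s}), ∃ c ∈ P M (C \ {t}), a = b * c

/-- The detectors of all cliques together. -/
theorem exists_UD {S : Type} (M : CoxeterMatrix S)
    (h : ∀ C : Set S, Clique M C → Det M C) : Nonempty (UD M) := by
  classical
  choose Sg D h1 h2 h3 h4 h5 h6 using h
  refine ⟨{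
    Sg := fun s => ⨅ (C : Set S) (hC : Clique M C), Sg C hC s
    D := fun s t => {x | ∀ (C : Set S) (hC : Clique M C), x ∈ D C hC s t}
    gmem := ?_, one_mem := ?_, inv_mem := ?_, mul_mem := ?_, closedS := ?_, closedD := ?_,
    u4 := ?_, u5 := ?_ }⟩
  · intro s t hst hm
    simp only [Subgroup.mem_iInf]
    intro C hC
    exact (h1 C hC s t hst hm).1
  · intro s t hst hm C hC
    exact (h1 C hC s t hst hm).2
  · intro s t x hx C hC
    exact (h2 C hC s t x (hx C hC)).1
  · intro s t x hx u hu v hv C hC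
    simp only [Subgroup.mem_iInf] at hu hv
    exact (h2 C hC s t x (hx C hC)).2 u (hu C hC) v (hv C hC)
  · intro s z hz
    simp only [SetLike.mem_coe, Subgroup.mem_iInf, not_forall] at hz
    obtain ⟨C, hC, hz⟩ := hz
    obtain ⟨N, hN, hf, hn⟩ := h3 C hC s z hz
    refine ⟨N, hN, hf, fun n hnN hmem => hn n hnN ?_⟩
    simp only [SetLike.mem_coe, Subgroup.mem_iInf] at hmem
    exact hmem C hC
  · intro s t hst hm z hz
    simp only [Set.mem_ofPred_eq, not_forall] at hz
    obtain ⟨C, hC, hz⟩ := hz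
    obtain ⟨N, hN, hf, hn⟩ := h4 C hC s t hst hm z hz
    exact ⟨N, hN, hf, fun n hnN hmem => hn n hnN (hmem C hC)⟩
  · intro C hC s hs a ha has
    simp only [Subgroup.mem_iInf] at has
    exact h5 C hC s hs a ha (has C hC)
  · intro C hC s hs t ht hst a ha had
    exact h6 C hC s hs t ht hst a ha (had C hC)

section basic

variable {S : Type} {M : CoxeterMatrix S}

theorem P_mono {C C' : Set S} (h : C ⊆ C') : P M C ≤ P M C' :=
  Subgroup.closure_mono (Set.image_mono h)

theorem gen_mem_P {C : Set S} {s : S} (h : s ∈ C) : gen M s ∈ P M C :=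
  Subgroup.subset_closure (Set.mem_image_of_mem _ h)

theorem P_empty {a : Gp M} (h : a ∈ P M ∅) : a = 1 := by
  simpa [P] using h

theorem Clique.mono {C C' : Set S} (h : Clique M C') (hs : C ⊆ C') : Clique M C :=
  fun s h1 t h2 h3 => h s (hs h1) t (hs h2) h3

theorem M_symm (s t : S) : M.M s t = M.M t s := M.symmetric s t

variable (U : UD M)

/-- `P(C)` is contained in `Sg s` if `insert s C` is a clique not containing... -/
theorem UD.P_le {C : Set S} {s : S} (hC : Clique M (insert s C)) (hs : s ∉ C) :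
    P M C ≤ U.Sg s := by
  rw [P, Subgroup.closure_le]
  rintro _ ⟨t, ht, rfl⟩
  have hst : s ≠ t := fun h => hs (h ▸ ht)
  exact U.gmem s t hst (hC s (Set.mem_insert _ _) t (Set.mem_insert_of_mem _ ht) hst)

theorem UD.P_le' {C : Set S} {s : S} (hC : Clique M C) (hs : s ∈ C) :
    P M (C \ {s}) ≤ U.Sg s := by
  apply U.P_le
  · rw [Set.insert_sdiff_singleton, Set.insert_eq_of_mem hs]; exact hC
  · simp

/-- Equal labels. -/
def UD.Eq (x y : S × Gp M) : Prop := x.1 = y.1 ∧ x.2⁻¹ * y.2 ∈ U.Sg x.1

/-- Commuting labels. -/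
def UD.Co (x y : S × Gp M) : Prop := x.1 ≠ y.1 ∧ M.M x.1 y.1 ≠ 0 ∧ x.2⁻¹ * y.2 ∈ U.D x.1 y.1

theorem UD.Eq.symm {x y : S × Gp M} (h : U.Eq x y) : U.Eq y x := by
  obtain ⟨s, x⟩ := x
  obtain ⟨t, y⟩ := y
  obtain ⟨h1, h2⟩ := h
  simp only at h1 h2
  subst h1
  refine ⟨rfl, ?_⟩
  have := (U.Sg s).inv_mem h2
  simpa [mul_inv_rev] using this

theorem UD.Co.symm {x y : S × Gp M} (h : U.Co x y) : U.Co y x := by
  obtain ⟨h1, h2, h3⟩ := h
  refine ⟨h1.symm, ?_, ?_⟩
  · rw [M_symm]; exact h2
  · have := U.inv_mem _ _ _ h3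
    simpa [mul_inv_rev] using this

theorem UD.Co.congr {x x' y : S × Gp M} (h : U.Co x y) (he : U.Eq x x') : U.Co x' y := by
  obtain ⟨s, x⟩ := x
  obtain ⟨s', x'⟩ := x'
  obtain ⟨t, y⟩ := y
  obtain ⟨h1, h2⟩ := he
  simp only at h1 h2
  subst h1
  obtain ⟨h3, h4, h5⟩ := h
  refine ⟨h3, h4, ?_⟩
  have := U.mul_mem _ _ _ h5 _ ((U.Sg s).inv_mem h2) 1 (U.Sg t).one_mem
  simpa [mul_inv_rev, mul_assoc] using this

/-- Paths in the complex of cosets `g P(C)`, with their labels. -/
inductive UD.R : Set S → Gp M → Gp M → List (S × Gp M) → Prop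
  | nil (C : Set S) (g : Gp M) (h : C = ∅) : UD.R C g g []
  | up (C : Set S) (s : S) (g gf x : Gp M) (l : List (S × Gp M)) :
      s ∉ C → Clique M (insert s C) → x⁻¹ * g ∈ U.Sg s → UD.R (insert s C) g gf l →
      UD.R C g gf ((s, x) :: l)
  | down (C : Set S) (s : S) (g a gf x : Gp M) (l : List (S × Gp M)) :
      s ∈ C → Clique M C → a ∈ P M C → x⁻¹ * (g * a) ∈ U.Sg s →
      UD.R (C \ {s}) (g * a) gf l → UD.R C g gf ((s, x) :: l)

theorem UD.R.shift {l : List (S × Gp M)} : ∀ {C : Set S} {g gf b : Gp M}, b ∈ P M C →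
    U.R C g gf l → U.R C (g * b) gf l := by
  induction l with
  | nil =>
    intro C g gf b hb h
    cases h with
    | nil _ _ hC =>
      subst hC
      rw [P_empty hb, mul_one]
      exact UD.R.nil _ _ rfl
  | cons x l ih =>
    intro C g gf b hb h
    cases h with
    | up _ s _ _ x _ hs hC hx h =>
      refine UD.R.up C s _ _ _ _ hs hC ?_ (ih (P_mono (Set.subset_insert _ _) hb) h)
      rw [← mul_assoc]
      exact (U.Sg s).mul_mem hx (U.P_le hC hs hb)
    | down _ s _ a _ x _ hs hC ha hx h =>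
      refine UD.R.down C s _ (b⁻¹ * a) _ _ _ hs hC ((P M C).mul_mem ((P M C).inv_mem hb) ha) ?_ ?_
      · simpa [mul_assoc] using hx
      · simpa [mul_assoc] using h

theorem UD.R.swap {x y : S × Gp M} {l : List (S × Gp M)} (hxy : U.Co x y) {C : Set S}
    {g gf : Gp M} (h : U.R C g gf (x :: y :: l)) : U.R C g gf (y :: x :: l) := by
  cases h with
  | up _ s _ _ x _ hs hC hx h =>
    cases h with
    | up _ t _ _ y _ ht hC' hy h =>
      have hst : s ≠ t := hxy.1
      have ht' : t ∉ C := fun h' => ht (Set.mem_insert_of_mem _ h')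
      rw [Set.insert_comm] at hC' h
      refine UD.R.up _ _ _ _ _ _ ht' (hC'.mono (Set.subset_insert _ _)) hy ?_
      refine UD.R.up _ _ _ _ _ _ ?_ hC' hx h
      rintro (h' | h')
      · exact hst h'
      · exact hs h'
    | down _ t _ a _ y _ ht hC' ha hy h =>
      have hst : s ≠ t := hxy.1
      have ht' : t ∈ C := by
        rcases ht with h' | h'
        · exact absurd h'.symm hst
        · exact h'
      have hD : a ∈ U.D s t := by
        have h3 := hxy.2.2
        simp only at h3
        have := U.mul_mem _ _ _ h3 _ ((U.Sg s).inv_mem hx) _ hy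
        have e : (x⁻¹ * g)⁻¹ * (x⁻¹ * y) * (y⁻¹ * (g * a)) = a := by group
        rwa [e] at this
      obtain ⟨b, hb, c, hc, e⟩ := U.u5 _ hC s (Set.mem_insert _ _) t ht hst a ha hD
      have hb' : b ∈ P M C := by
        refine P_mono ?_ hb
        rintro z ⟨h1 | h1, h2⟩
        · exact absurd h1 h2
        · exact h1
      have hcl : Clique M C := hC.mono (Set.subset_insert _ _)
      refine UD.R.down C t g b _ y _ ht' hcl hb' ?_ ?_
      · have h1 : c⁻¹ ∈ U.Sg t := (U.Sg t).inv_mem (U.P_le' hC (Set.mem_insert_of_mem _ ht') hc)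
        have := (U.Sg t).mul_mem hy h1
        have e2 : y⁻¹ * (g * a) * c⁻¹ = y⁻¹ * (g * b) := by rw [e]; group
        rwa [e2] at this
      · have e3 : insert s (C \ {t}) = insert s C \ {t} := by
          ext z
          simp only [Set.mem_insert_iff, Set.mem_sdiff, Set.mem_singleton_iff]
          constructor
          · rintro (h1 | h1)
            · exact ⟨Or.inl h1, h1 ▸ hst⟩
            · exact ⟨Or.inr h1.1, h1.2⟩
          · rintro ⟨h1 | h1, h2⟩
            · exact Or.inl h1
            · exact Or.inr ⟨h1, h2⟩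
        refine UD.R.up _ _ _ _ _ _ (fun h' => hs h'.1) ?_ ?_ ?_
        · rw [e3]
          exact hC.mono Set.sdiff_subset
        · rw [← mul_assoc]
          exact (U.Sg s).mul_mem hx (U.P_le hC hs hb')
        · rw [e3]
          have := UD.R.shift U ((P M _).inv_mem hc) h
          have e4 : g * a * c⁻¹ = g * b := by rw [e]; group
          rwa [e4] at this
  | down _ s _ a _ x _ hs hC ha hx h =>
    cases h with
    | up _ t _ _ y _ ht hC' hy h =>
      have hst : s ≠ t := hxy.1
      have ht' : t ∉ C := fun h' => ht ⟨h', fun h'' => hst h''.symm⟩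
      have hcl : Clique M (insert t C) := by
        intro u hu v hv huv
        by_cases h1 : u = s
        · rcases hv with h2 | h2
          · rw [h1, h2]; exact hxy.2.1
          · exact hC u (h1 ▸ hs) v h2 huv
        · by_cases h2 : v = s
          · rcases hu with h3 | h3
            · rw [h2, h3, M_symm]; exact hxy.2.1
            · exact hC u h3 v (h2 ▸ hs) huv
          · refine hC' u ?_ v ?_ huv
            · rcases hu with h3 | h3
              · exact Or.inl h3
              · exact Or.inr ⟨h3, h1⟩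
            · rcases hv with h3 | h3
              · exact Or.inl h3
              · exact Or.inr ⟨h3, h2⟩
      refine UD.R.up C t g _ y _ ht' hcl ?_ ?_
      · have h1 : a⁻¹ ∈ U.Sg t := (U.Sg t).inv_mem (U.P_le hcl ht' ha)
        have := (U.Sg t).mul_mem hy h1
        have e : y⁻¹ * (g * a) * a⁻¹ = y⁻¹ * g := by group
        rwa [e] at this
      · refine UD.R.down _ s g a _ x _ (Set.mem_insert_of_mem _ hs) hcl
          (P_mono (Set.subset_insert _ _) ha) hx ?_
        have e3 : insert t C \ {s} = insert t (C \ {s}) := by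
          ext z
          simp only [Set.mem_insert_iff, Set.mem_sdiff, Set.mem_singleton_iff]
          constructor
          · rintro ⟨h1 | h1, h2⟩
            · exact Or.inl h1
            · exact Or.inr ⟨h1, h2⟩
          · rintro (h1 | h1)
            · exact ⟨Or.inl h1, fun h' => hst (h' ▸ h1)⟩
            · exact ⟨Or.inr h1.1, h1.2⟩
        rw [e3]
        exact h
    | down _ t _ b _ y _ ht hC' hb hy h =>
      have hst : s ≠ t := hxy.1
      refine UD.R.down C t g (a * b) _ y _ ht.1 hC
        ((P M C).mul_mem ha (P_mono Set.sdiff_subset hb)) ?_ ?_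
      · rw [← mul_assoc g a b]; exact hy
      · refine UD.R.down _ s _ 1 _ x _ ⟨hs, fun h' => hst h'⟩ (hC.mono Set.sdiff_subset)
          (P M _).one_mem ?_ ?_
        · rw [mul_one, ← mul_assoc, ← mul_assoc]
          have := (U.Sg s).mul_mem hx (U.P_le' hC hs hb)
          rwa [← mul_assoc] at this
        · rw [mul_one, ← mul_assoc g a b]
          have e3 : (C \ {t}) \ {s} = (C \ {s}) \ {t} := by
            ext z; simp only [Set.mem_sdiff]; tauto
          rw [e3]
          exact h

theorem UD.R.cancel {x y : S × Gp M} {l : List (S × Gp M)} (hxy : U.Eq x y) {C : Set S}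
    {g gf : Gp M} (h : U.R C g gf (x :: y :: l)) : U.R C g gf l := by
  obtain ⟨hs1, hs2⟩ := hxy
  cases h with
  | up _ s _ _ x _ hs hC hx h =>
    cases h with
    | up _ t _ _ y _ ht hC' hy h =>
      simp only at hs1
      exact absurd (Or.inl hs1.symm) ht
    | down _ t _ a _ y _ ht hC' ha hy h =>
      simp only at hs1 hs2
      subst hs1
      have haS : a ∈ U.Sg s := by
        have := (U.Sg s).mul_mem ((U.Sg s).mul_mem ((U.Sg s).inv_mem hx) hs2) hy
        have e : (x⁻¹ * g)⁻¹ * (x⁻¹ * y) * (y⁻¹ * (g * a)) = a := by group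
        rwa [e] at this
      have h1 := U.u4 _ hC s (Set.mem_insert _ _) a ha haS
      have e3 : insert s C \ {s} = C := by
        ext z
        simp only [Set.mem_insert_iff, Set.mem_sdiff, Set.mem_singleton_iff]
        constructor
        · rintro ⟨h1 | h1, h2⟩
          · exact absurd h1 h2
          · exact h1
        · intro h1
          exact ⟨Or.inr h1, fun h' => hs (h' ▸ h1)⟩
      rw [e3] at h1 h
      have := UD.R.shift U ((P M C).inv_mem h1) h
      rwa [mul_assoc, mul_inv_cancel, mul_one] at this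
  | down _ s _ a _ x _ hs hC ha hx h =>
    cases h with
    | up _ t _ _ y _ ht hC' hy h =>
      simp only at hs1 hs2
      subst hs1
      rw [Set.insert_sdiff_singleton, Set.insert_eq_of_mem hs] at h
      have := UD.R.shift U ((P M C).inv_mem ha) h
      rwa [mul_assoc, mul_inv_cancel, mul_one] at this
    | down _ t _ b _ y _ ht hC' hb hy h =>
      simp only at hs1
      exact absurd hs1.symm ht.2

/-- Congruence: changing the end of a path. -/
theorem UD.R.congr {q q' : List (S × Gp M)} {gf : Gp M}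
    (hq : ∀ C g, U.R C g gf q → U.R C g gf q') (p : List (S × Gp M)) :
    ∀ C g, U.R C g gf (p ++ q) → U.R C g gf (p ++ q') := by
  induction p with
  | nil => exact hq
  | cons x p ih =>
    intro C g h
    rw [List.cons_append] at h ⊢
    cases h with
    | up _ s _ _ x _ hs hC hx h => exact UD.R.up _ _ _ _ _ _ hs hC hx (ih _ _ h)
    | down _ s _ a _ x _ hs hC ha hx h => exact UD.R.down _ _ _ _ _ _ _ hs hC ha hx (ih _ _ h)

/-- Splitting a list at two positions. -/
theorem split_list {α : Type} (l : List α) (i j : Fin l.length) (hij : i < j) :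
    ∃ p m q, l = p ++ l.get i :: (m ++ l.get j :: q) ∧
      ∀ z ∈ m, ∃ k, i < k ∧ k < j ∧ z = l.get k := by
  refine ⟨l.take i, (l.take j).drop (i + 1), l.drop (j + 1), ?_, ?_⟩
  · have h1 : l = l.take j ++ l.get j :: l.drop (j + 1) := by
      rw [List.get_eq_getElem, ← List.drop_eq_getElem_cons j.2, List.take_append_drop]
    have hi : i.1 < (l.take j).length := by
      rw [List.length_take]; exact lt_min hij i.2
    have h2 : l.take j = (l.take j).take i ++ (l.take j)[i.1] :: (l.take j).drop (i + 1) := by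
      rw [← List.drop_eq_getElem_cons hi, List.take_append_drop]
    have h3 : (l.take j).take i = l.take i := by
      rw [List.take_take, min_eq_left (show i.1 ≤ j.1 from le_of_lt hij)]
    have h4 : (l.take j)[i.1] = l.get i := by
      rw [List.getElem_take]; rfl
    rw [h3, h4] at h2
    conv_lhs => rw [h1, h2]
    simp
  · intro z hz
    obtain ⟨n, hn, rfl⟩ := List.getElem_of_mem hz
    have hn' := hn
    rw [List.length_drop, List.length_take] at hn'
    have hj := j.2
    refine ⟨⟨i.1 + 1 + n, by omega⟩, ?_, ?_, ?_⟩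
    · show i.1 < i.1 + 1 + n
      omega
    · show i.1 + 1 + n < j.1
      omega
    · rw [List.getElem_drop, List.getElem_take]; rfl

/-- Existence of paths. -/
theorem UD.exists_path (g : Gp M) : ∀ h : Gp M, ∃ l, U.R ∅ h (h * g) l := by
  have hcl : ∀ s : S, Clique M (insert s (∅ : Set S)) := by
    intro s u hu v hv huv
    simp only [insert_empty_eq, Set.mem_singleton_iff] at hu hv
    exact absurd (hu.trans hv.symm) huv
  have key : ∀ (s : S) (h gf e : Gp M) (l : List (S × Gp M)), e ∈ P M (insert s ∅) →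
      U.R ∅ (h * e) gf l → ∃ l', U.R ∅ h gf l' := by
    intro s h gf e l he hl
    refine ⟨(s, h) :: (s, h * e) :: l, ?_⟩
    refine UD.R.up _ _ _ _ _ _ (by simp) (hcl s) (by simp) ?_
    refine UD.R.down _ _ _ e _ _ _ (Set.mem_insert _ _) (hcl s) he (by simp) ?_
    have e3 : insert s (∅ : Set S) \ {s} = ∅ := by simp
    rw [e3]
    exact hl
  have hg : g ∈ Subgroup.closure (Set.range (gen M)) := by rw [closure_gen]; trivial
  induction hg using Subgroup.closure_induction_left with
  | one => intro h; exact ⟨[], by rw [mul_one]; exact UD.R.nil _ _ rfl⟩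
  | mul_left x hx y hy ih =>
    obtain ⟨s, rfl⟩ := hx
    intro h
    obtain ⟨l, hl⟩ := ih (h * gen M s)
    rw [mul_assoc] at hl
    exact key s h _ (gen M s) l (gen_mem_P (Set.mem_insert _ _)) hl
  | inv_mul_cancel x hx y hy ih =>
    obtain ⟨s, rfl⟩ := hx
    intro h
    obtain ⟨l, hl⟩ := ih (h * (gen M s)⁻¹)
    rw [mul_assoc] at hl
    exact key s h _ (gen M s)⁻¹ l ((P M _).inv_mem (gen_mem_P (Set.mem_insert _ _))) hl

/-- Moving a label to the left through commuting ones. -/
theorem UD.R.move {y : S × Gp M} {gf : Gp M} (m : List (S × Gp M)) :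
    ∀ (q : List (S × Gp M)), (∀ z ∈ m, U.Co y z) → ∀ C g, U.R C g gf (m ++ y :: q) →
      U.R C g gf (y :: (m ++ q)) := by
  induction m with
  | nil => intro q _ C g h; exact h
  | cons z m ih =>
    intro q hm C g h
    have h1 : U.R C g gf (z :: (y :: (m ++ q))) := by
      refine UD.R.congr U (p := [z]) (q := m ++ y :: q) (q' := y :: (m ++ q)) ?_ C g h
      intro C g h
      exact ih q (fun z' hz' => hm z' (List.mem_cons_of_mem _ hz')) C g h
    exact UD.R.swap U (hm z List.mem_cons_self).symm h1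

/-- A shortest path is reduced. -/
theorem UD.R.reduced {g gf : Gp M} {l : List (S × Gp M)} (h : U.R ∅ g gf l)
    (hmin : ∀ l', U.R ∅ g gf l' → l.length ≤ l'.length) (i j : Fin l.length) (hij : i < j)
    (he : U.Eq (l.get i) (l.get j)) : ∃ k, i < k ∧ k < j ∧ ¬ U.Co (l.get i) (l.get k) := by
  by_contra hcon
  push Not at hcon
  obtain ⟨p, m, q, e, hm⟩ := split_list l i j hij
  have h1 : ∀ C g, U.R C g gf (l.get i :: (m ++ l.get j :: q)) → U.R C g gf (m ++ q) := by
    intro C g h
    have h2 : U.R C g gf ([l.get i] ++ (l.get j :: (m ++ q))) := by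
      refine UD.R.congr U (p := [l.get i]) (q := m ++ l.get j :: q)
        (q' := l.get j :: (m ++ q)) ?_ C g h
      intro C g h
      refine UD.R.move U m q ?_ C g h
      intro z hz
      obtain ⟨k, hk1, hk2, rfl⟩ := hm z hz
      exact (hcon k hk1 hk2).congr U he
    exact UD.R.cancel U he h2
  have h2 : U.R ∅ g gf (p ++ (m ++ q)) := by
    refine UD.R.congr U h1 p ∅ g ?_
    rw [← e]; exact h
  have h3 := hmin _ h2
  have h4 : l.length = (p ++ l.get i :: (m ++ l.get j :: q)).length := by rw [← e]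
  simp only [List.length_append, List.length_cons] at h3 h4
  omega

end basic

end Unf
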