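import Pool.Agent.Helper12_UNF.Path

set_option autoImplicit false

/-! # Squad UNF: the representation -/

namespace Unf

open Art

section rep

variable {S : Type} {M : CoxeterMatrix S} {F Y : Type} [Group F]

/-- The label of `s` at `k`. -/
def lab (Hs : S → Subgroup F) (s : S) (k : F) : S × Set F := (s, {z | k⁻¹ * z ∈ Hs s})

theorem lab_eq {Hs : S → Subgroup F} {s : S} {k k' : F} (h : k⁻¹ * k' ∈ Hs s) :
    lab Hs s k = lab Hs s k' := by
  unfold lab
  congr 1
  ext z
  constructor
  · intro hz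
    have := (Hs s).mul_mem ((Hs s).inv_mem h) hz
    have e : (k⁻¹ * k')⁻¹ * (k⁻¹ * z) = k'⁻¹ * z := by group
    rw [e] at this
    exact this
  · intro hz
    have := (Hs s).mul_mem h hz
    have e : (k⁻¹ * k') * (k'⁻¹ * z) = k⁻¹ * z := by group
    rw [e] at this
    exact this

theorem mem_of_lab_eq {Hs : S → Subgroup F} {s : S} {k k' : F} (h : lab Hs s k = lab Hs s k') :
    k⁻¹ * k' ∈ Hs s := by
  have h1 : ({z | k⁻¹ * z ∈ Hs s} : Set F) = {z | k'⁻¹ * z ∈ Hs s} := congrArg Prod.snd h
  have h2 : k' ∈ ({z | k'⁻¹ * z ∈ Hs s} : Set F) := by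
    show k'⁻¹ * k' ∈ Hs s
    rw [inv_mul_cancel]
    exact (Hs s).one_mem
  rw [← h1] at h2
  exact h2

variable (Hs : S → Subgroup F) (τ : S × Set F → Equiv.Perm Y)

/-- The toggle of `s`. -/
def aP (s : S) : Equiv.Perm (Y × F) where
  toFun p := (τ (lab Hs s p.2) p.1, p.2)
  invFun p := ((τ (lab Hs s p.2))⁻¹ p.1, p.2)
  left_inv p := by simp
  right_inv p := by simp

/-- The shift. -/
def hat (Y : Type) (F : Type) [Group F] : F →* Equiv.Perm (Y × F) where
  toFun f :=
    { toFun := fun p => (p.1, p.2 * f⁻¹)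
      invFun := fun p => (p.1, p.2 * f)
      left_inv := fun p => by simp
      right_inv := fun p => by simp }
  map_one' := by ext p <;> simp
  map_mul' f g := by
    ext p
    · rfl
    · show p.2 * (f * g)⁻¹ = (p.2 * g⁻¹) * f⁻¹
      rw [mul_inv_rev, mul_assoc]

theorem aP_apply (s : S) (y : Y) (k : F) : aP Hs τ s (y, k) = (τ (lab Hs s k) y, k) := rfl

theorem hat_apply (f : F) (y : Y) (k : F) : hat Y F f (y, k) = (y, k * f⁻¹) := rfl

variable {Hs τ}

theorem aP_mul_self (h2 : ∀ x, τ x * τ x = 1) (s : S) : aP Hs τ s * aP Hs τ s = 1 := by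
  apply Equiv.ext
  rintro ⟨y, k⟩
  show (τ (lab Hs s k) (τ (lab Hs s k) y), k) = (y, k)
  rw [← Equiv.Perm.mul_apply, h2]; rfl

theorem aP_comm {s t : S} (h : ∀ k, τ (lab Hs s k) * τ (lab Hs t k) =
    τ (lab Hs t k) * τ (lab Hs s k)) : Commute (aP Hs τ s) (aP Hs τ t) := by
  apply Equiv.ext
  rintro ⟨y, k⟩
  show (τ (lab Hs s k) (τ (lab Hs t k) y), k) = (τ (lab Hs t k) (τ (lab Hs s k) y), k)
  rw [← Equiv.Perm.mul_apply, h]; rfl

theorem aP_hat {s : S} {f : F} (h : f ∈ Hs s) : Commute (aP Hs τ s) (hat Y F f) := by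
  apply Equiv.ext
  rintro ⟨y, k⟩
  show (τ (lab Hs s (k * f⁻¹)) y, k * f⁻¹) = (τ (lab Hs s k) y, k * f⁻¹)
  rw [lab_eq (k := k * f⁻¹) (k' := k)]
  rw [mul_inv_rev, inv_inv, mul_assoc, inv_mul_cancel, mul_one]
  exact h

end rep

/-- The hypotheses of the representation. -/
structure RD {S : Type} (M : CoxeterMatrix S) {F Y : Type} [Group F] (θ : Gp M →* F)
    (Hs : S → Subgroup F) (τ : S × Set F → Equiv.Perm Y) : Prop where
  mem : ∀ s t, s ≠ t → M.M s t ≠ 0 → θ (gen M t) ∈ Hs s
  sq : ∀ x, τ x * τ x = 1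
  comm : ∀ s t, s ≠ t → M.M s t ≠ 0 → ∀ k, τ (lab Hs s k) * τ (lab Hs t k) =
    τ (lab Hs t k) * τ (lab Hs s k)

section rep2

variable {S : Type} {M : CoxeterMatrix S} {F Y : Type} [Group F] {θ : Gp M →* F}
  {Hs : S → Subgroup F} {τ : S × Set F → Equiv.Perm Y}

/-- Conjugation by an involution. -/
theorem alt_conj {G : Type} [Group G] (m : ℕ) (c a b : G) (hc : c * c = 1) :
    alt m (c * a * c) (c * b * c) = c * alt m a b * c := by
  have hc' : c = c⁻¹ := eq_inv_of_mul_eq_one_left hc
  have e : ∀ x : G, c * x * c = MulAut.conj c x := by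
    intro x
    rw [MulAut.conj_apply, ← hc']
  rw [e, e, e]
  exact (map_alt (MulAut.conj c).toMonoidHom m a b).symm

/-- The representation exists. -/
theorem RD.exists_hom (h : RD M θ Hs τ) : ∃ Φ : Gp M →* Equiv.Perm (Y × F), ∀ s,
    Φ (gen M s) = aP Hs τ s * hat Y F (θ (gen M s)) * aP Hs τ s := by
  refine Art.lift M (fun s => aP Hs τ s * hat Y F (θ (gen M s)) * aP Hs τ s) ?_
  intro s t hst
  by_cases hne : s = t
  · subst hne; rfl
  have hts : M.M t s ≠ 0 := by rw [M_symm]; exact hst
  have c1 := aP_comm (h.comm s t hne hst)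
  have c2 : Commute (aP Hs τ t) (hat Y F (θ (gen M s))) := aP_hat (h.mem t s (Ne.symm hne) hts)
  have c3 : Commute (aP Hs τ s) (hat Y F (θ (gen M t))) := aP_hat (h.mem s t hne hst)
  have s1 := aP_mul_self (Hs := Hs) h.sq s
  have s2 := aP_mul_self (Hs := Hs) h.sq t
  set A := aP Hs τ s
  set B := aP Hs τ t
  set x := hat Y F (θ (gen M s))
  set y := hat Y F (θ (gen M t))
  have hcc : (A * B) * (A * B) = 1 := by
    calc (A * B) * (A * B) = A * (B * A) * B := by group
      _ = A * (A * B) * B := by rw [c1.eq]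
      _ = (A * A) * (B * B) := by group
      _ = 1 := by rw [s1, s2, mul_one]
  have e1 : A * x * A = (A * B) * x * (A * B) := by
    calc A * x * A = A * (B * B) * x * A := by rw [s2, mul_one]
      _ = A * B * (B * x) * A := by group
      _ = A * B * (x * B) * A := by rw [c2.eq]
      _ = A * B * x * (B * A) := by group
      _ = A * B * x * (A * B) := by rw [c1.eq]
  have e2 : B * y * B = (A * B) * y * (A * B) := by
    calc B * y * B = B * (A * A) * y * B := by rw [s1, mul_one]
      _ = B * A * (A * y) * B := by group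
      _ = B * A * (y * A) * B := by rw [c3.eq]
      _ = (B * A) * y * (A * B) := by group
      _ = (A * B) * y * (A * B) := by rw [c1.eq]
  show alt _ (A * x * A) (B * y * B) = alt _ (B * y * B) (A * x * A)
  rw [e1, e2, alt_conj _ _ _ _ hcc, alt_conj _ _ _ _ hcc]
  have e3 : alt (M.M s t) x y = alt (M.M s t) y x := by
    have := congrArg (fun g => hat Y F (θ g)) (relHolds M s t hst)
    simp only [map_alt] at this
    exact this
  rw [e3]

theorem RD.snd (h : RD M θ Hs τ) {Φ : Gp M →* Equiv.Perm (Y × F)}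
    (hΦ : ∀ s, Φ (gen M s) = aP Hs τ s * hat Y F (θ (gen M s)) * aP Hs τ s) (x : Gp M) :
    ∀ p, (Φ x p).2 = p.2 * (θ x)⁻¹ := by
  have hx : x ∈ Subgroup.closure (Set.range (gen M)) := by rw [closure_gen]; trivial
  induction hx using Subgroup.closure_induction with
  | mem x hx =>
    obtain ⟨s, rfl⟩ := hx
    intro p
    rw [hΦ]
    rfl
  | one => intro p; simp
  | mul x y _ _ hx hy =>
    intro p
    rw [map_mul, Equiv.Perm.mul_apply, hx, hy, map_mul, mul_inv_rev, mul_assoc]
  | inv x _ hx =>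
    intro p
    have := hx ((Φ x)⁻¹ p)
    rw [← Equiv.Perm.mul_apply, mul_inv_cancel, Equiv.Perm.one_apply] at this
    rw [map_inv, map_inv, inv_inv, this]
    group

/-- The product of the toggles of a clique. -/
theorem RD.exists_B [Finite S] (h : RD M θ Hs τ) : ∃ B : Set S → Equiv.Perm (Y × F),
    B ∅ = 1 ∧ (∀ C s, s ∉ C → Clique M (insert s C) → B (insert s C) = aP Hs τ s * B C) ∧
    (∀ (C : Set S) (g : Equiv.Perm (Y × F)), Clique M C → (∀ s ∈ C, Commute g (aP Hs τ s)) →
      Commute g (B C)) := by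
  classical
  haveI : Fintype S := Fintype.ofFinite S
  let fs : Set S → Finset S := fun C => Finset.univ.filter (fun s => s ∈ C)
  have hfs : ∀ (C : Set S) (s : S), s ∈ fs C ↔ s ∈ C := fun C s => by simp [fs]
  have hp : ∀ C : Set S, Clique M C →
      ((fs C : Finset S) : Set S).Pairwise (Function.onFun Commute (aP Hs τ)) := by
    intro C hC s hs t ht hst
    have hs' : s ∈ C := (hfs C s).1 hs
    have ht' : t ∈ C := (hfs C t).1 ht
    exact aP_comm (h.comm s t hst (hC s hs' t ht' hst))
  have e0 : ∀ (A : Finset S) (hA : (A : Set S).Pairwise (Function.onFun Commute (aP Hs τ)))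
      (A' : Finset S) (hA' : (A' : Set S).Pairwise (Function.onFun Commute (aP Hs τ))), A = A' →
      A.noncommProd (aP Hs τ) hA = A'.noncommProd (aP Hs τ) hA' := by
    intro A hA A' hA' e
    subst e
    rfl
  refine ⟨fun C => if hC : Clique M C then (fs C).noncommProd (aP Hs τ) (hp C hC) else 1,
    ?_, ?_, ?_⟩
  · have h0 : Clique M (∅ : Set S) := fun s hs => absurd hs (Set.notMem_empty _)
    simp only [h0, dif_pos]
    have e : fs ∅ = ∅ := by
      ext s
      rw [hfs]
      simp
    rw [e0 _ _ ∅ (by simp) e]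
    exact Finset.noncommProd_empty _ _
  · intro C s hs hC
    have hC' : Clique M C := hC.mono (Set.subset_insert _ _)
    simp only [hC, hC', dif_pos]
    have e : fs (insert s C) = insert s (fs C) := by
      ext t
      rw [hfs, Finset.mem_insert, hfs]
      exact Set.mem_insert_iff
    have hs' : s ∉ fs C := by rw [hfs]; exact hs
    have hpw : ((insert s (fs C) : Finset S) : Set S).Pairwise
        (Function.onFun Commute (aP Hs τ)) := by
      rw [← e]; exact hp _ hC
    rw [e0 _ _ (insert s (fs C)) hpw e]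
    exact Finset.noncommProd_insert_of_notMem _ _ _ _ hs'
  · intro C g hC hg
    simp only [hC, dif_pos]
    refine Finset.noncommProd_commute _ _ _ _ ?_
    intro s hs
    exact hg s ((hfs C s).1 hs)

/-- Evaluation along paths. -/
theorem RD.exists_eval [Finite S] (h : RD M θ Hs τ) (U : UD M)
    (hU : ∀ s, ∀ x ∈ U.Sg s, θ x ∈ Hs s) :
    ∃ Φ : Gp M →* Equiv.Perm (Y × F), ∀ (g : Gp M) (l : List (S × Gp M)), U.R ∅ 1 g l →
      ∀ y : Y, (Φ g⁻¹ (y, 1)).1 = l.foldl (fun y x => τ (lab Hs x.1 (θ x.2)) y) y := by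
  obtain ⟨Φ, hΦ⟩ := h.exists_hom
  obtain ⟨B, hB0, hB1, hB2⟩ := h.exists_B
  have hsnd := h.snd hΦ
  -- the second component of `B`
  have hBsnd : ∀ (C : Set S), Clique M C → ∀ p, (B C p).2 = p.2 := by
    intro C
    induction C, C.toFinite using Set.Finite.induction_on with
    | empty => intro _ p; rw [hB0]; rfl
    | insert hs _ ih =>
      intro hC p
      rw [hB1 _ _ hs hC]
      exact ih (hC.mono (Set.subset_insert _ _)) p
  have hBsq : ∀ (C : Set S), Clique M C → B C * B C = 1 := by
    intro C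
    induction C, C.toFinite using Set.Finite.induction_on with
    | empty => intro _; rw [hB0, mul_one]
    | @insert s C hs _ ih =>
      intro hC
      have hC' : Clique M C := hC.mono (Set.subset_insert _ _)
      have c : Commute (aP Hs τ s) (B C) := by
        refine hB2 C _ hC' (fun t ht => ?_)
        have hst : s ≠ t := fun h => hs (h ▸ ht)
        exact aP_comm (h.comm s t hst (hC s (Set.mem_insert _ _) t (Set.mem_insert_of_mem _ ht) hst))
      rw [hB1 _ _ hs hC]
      calc aP Hs τ s * B C * (aP Hs τ s * B C) = aP Hs τ s * (B C * aP Hs τ s) * B C := by group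
        _ = aP Hs τ s * (aP Hs τ s * B C) * B C := by rw [c.eq]
        _ = (aP Hs τ s * aP Hs τ s) * (B C * B C) := by group
        _ = 1 := by rw [aP_mul_self h.sq, ih hC', mul_one]
  -- the formula for `Φ` on `P C`
  have hBP : ∀ (C : Set S), Clique M C → ∀ x ∈ P M C, Φ x = B C * hat Y F (θ x) * B C := by
    intro C hC x hx
    induction hx using Subgroup.closure_induction with
    | mem x hx =>
      obtain ⟨s, hs, rfl⟩ := hx
      have e : insert s (C \ {s}) = C := by
        rw [Set.insert_sdiff_singleton, Set.insert_eq_of_mem hs]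
      have hs' : s ∉ C \ {s} := by simp
      have hC' : Clique M (C \ {s}) := hC.mono Set.sdiff_subset
      have e2 : B C = aP Hs τ s * B (C \ {s}) := by
        have := hB1 (C \ {s}) s hs' (by rw [e]; exact hC)
        rwa [e] at this
      have c : Commute (aP Hs τ s) (B (C \ {s})) := by
        refine hB2 _ _ hC' (fun t ht => ?_)
        have hst : s ≠ t := fun h => ht.2 h.symm
        exact aP_comm (h.comm s t hst (hC s hs t ht.1 hst))
      have c2 : Commute (hat Y F (θ (gen M s))) (B (C \ {s})) := by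
        refine hB2 _ _ hC' (fun t ht => ?_)
        have hst : t ≠ s := fun h => ht.2 h
        exact (aP_hat (h.mem t s hst (hC t ht.1 s hs hst))).symm
      have sq := hBsq _ hC'
      rw [hΦ, e2]
      set A := aP Hs τ s
      set b := B (C \ {s})
      set x := hat Y F (θ (gen M s))
      calc A * x * A = A * x * (b * b) * A := by rw [sq, mul_one]
        _ = A * (x * b) * (b * A) := by group
        _ = A * (b * x) * (A * b) := by rw [c2.eq, c.eq]
        _ = A * b * x * (A * b) := by group
    | one => rw [map_one, map_one, map_one, mul_one, hBsq C hC]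
    | mul x y _ _ hx hy =>
      rw [map_mul, hx, hy, map_mul, map_mul]
      calc B C * hat Y F (θ x) * B C * (B C * hat Y F (θ y) * B C)
          = B C * hat Y F (θ x) * (B C * B C) * hat Y F (θ y) * B C := by group
        _ = B C * (hat Y F (θ x) * hat Y F (θ y)) * B C := by rw [hBsq C hC]; group
    | inv x _ hx =>
      have hi : (B C)⁻¹ = B C := inv_eq_of_mul_eq_one_left (hBsq C hC)
      rw [map_inv, hx, mul_inv_rev, mul_inv_rev, hi, map_inv, map_inv, mul_assoc]
  -- evaluation
  have key : ∀ (C : Set S) (g gf : Gp M) (l : List (S × Gp M)), Clique M C → U.R C g gf l →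
      ∀ y : Y, (Φ gf⁻¹ (y, 1)).1 =
        l.foldl (fun y x => τ (lab Hs x.1 (θ x.2)) y) (B C (Φ g⁻¹ (y, 1))).1 := by
    intro C g gf l hC hR y
    induction hR with
    | nil C g h0 =>
      subst h0
      rw [hB0]
      rfl
    | up C s g gf x l hs hCs hx hR ih =>
      rw [ih hCs, List.foldl_cons, hB1 C s hs hCs]
      have e1 : (B C (Φ g⁻¹ (y, 1))).2 = θ g := by
        rw [hBsnd C hC, hsnd, one_mul, map_inv, inv_inv]
      have e2 : lab Hs s (θ x) = lab Hs s (θ g) := by
        apply lab_eq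
        rw [← map_inv, ← map_mul]
        exact hU s _ hx
      rw [e2, ← e1]
      rfl
    | down C s g a gf x l hs hC' ha hx hR ih =>
      have e : insert s (C \ {s}) = C := by
        rw [Set.insert_sdiff_singleton, Set.insert_eq_of_mem hs]
      have hs' : s ∉ C \ {s} := by simp
      have hC'' : Clique M (C \ {s}) := hC.mono Set.sdiff_subset
      have e2 : B C = aP Hs τ s * B (C \ {s}) := by
        have := hB1 (C \ {s}) s hs' (by rw [e]; exact hC)
        rwa [e] at this
      rw [ih hC'', List.foldl_cons]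
      have e3 : (B C (Φ (g * a)⁻¹ (y, 1))).1 = (B C (Φ g⁻¹ (y, 1))).1 := by
        rw [mul_inv_rev, map_mul, hBP C hC _ ((P M C).inv_mem ha)]
        have : ∀ p, (B C ((B C * hat Y F (θ a⁻¹) * B C) p)).1 = (B C p).1 := by
          intro p
          have : B C ((B C * hat Y F (θ a⁻¹) * B C) p) = (B C * B C) (hat Y F (θ a⁻¹) (B C p)) := rfl
          rw [this, hBsq C hC]
          rfl
        exact this _
      have e4 : (B (C \ {s}) (Φ (g * a)⁻¹ (y, 1))).2 = θ (g * a) := by
        rw [hBsnd _ hC'', hsnd, one_mul, map_inv, inv_inv]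
      have e5 : (B C (Φ (g * a)⁻¹ (y, 1))).1 =
          τ (lab Hs s (θ (g * a))) (B (C \ {s}) (Φ (g * a)⁻¹ (y, 1))).1 := by
        rw [← e4, e2]; rfl
      have e6 : lab Hs s (θ x) = lab Hs s (θ (g * a)) := by
        apply lab_eq
        rw [← map_inv, ← map_mul]
        exact hU s _ hx
      have e7 : (B (C \ {s}) (Φ (g * a)⁻¹ (y, 1))).1 =
          τ (lab Hs s (θ x)) (B C (Φ g⁻¹ (y, 1))).1 := by
        rw [e6, ← e3, e5]
        have := congrArg (fun p : Equiv.Perm Y => p (B (C \ {s}) (Φ (g * a)⁻¹ (y, 1))).1)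
          (h.sq (lab Hs s (θ (g * a))))
        exact this.symm
      rw [e7]
  refine ⟨Φ, fun g l hR y => ?_⟩
  have h0 : Clique M (∅ : Set S) := fun s hs => absurd hs (Set.notMem_empty _)
  rw [key ∅ 1 g l h0 hR y, hB0, inv_one, map_one]
  rfl

end rep2

end Unf
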