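import Pool.Agent.Helper44_Art.Api
import Pool.Agent.Helper38_Coxeter.Roots

set_option autoImplicit false

/-!
# Squad UNF (MP_61f49c_al): unfolding of Artin groups. Definitions and module statements

A label `0` stands for infinity.  `Art.Gp M` is the Artin group, `Art.gen M s` its generators,
`Art.res M D` the restriction of the matrix to `D`.
-/

namespace Unf

open Art

/-- The subgroup of the Artin group generated by the generators in `D`. -/
def P {S : Type} (M : CoxeterMatrix S) (D : Set S) : Subgroup (Gp M) :=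
  Subgroup.closure (gen M '' D)

/-- A set of generators with pairwise finite labels. -/
def Clique {S : Type} (M : CoxeterMatrix S) (C : Set S) : Prop :=
  ∀ s ∈ C, ∀ t ∈ C, s ≠ t → M.M s t ≠ 0

/-- The product `A B` of two subgroups is closed in the profinite topology. -/
def ClosedMul {H : Type} [Group H] (A B : Subgroup H) : Prop :=
  ∀ z : H, (∀ u ∈ A, ∀ v ∈ B, z ≠ u * v) →
    ∃ N : Subgroup H, N.Normal ∧ N.FiniteIndex ∧ ∀ u ∈ A, ∀ v ∈ B, ∀ n ∈ N, z ≠ u * v * n

/-- The standard parabolic subgroup of the Coxeter group. -/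
def WP {S : Type} (M : CoxeterMatrix S) (D : Set S) : Subgroup M.Group :=
  Subgroup.closure (M.simple '' D)

/-! ## Part A: the abstract unfolding theorem -/

/-- `X` is closed in the profinite topology of `G`. -/
def ClosedIn {G : Type} [Group G] (X : Set G) : Prop :=
  ∀ z, z ∉ X → ∃ N : Subgroup G, N.Normal ∧ N.FiniteIndex ∧ ∀ n ∈ N, z * n ∉ X

/-- A detector for the clique `C`. -/
def Det {S : Type} (M : CoxeterMatrix S) (C : Set S) : Prop :=
  ∃ (Sg : S → Subgroup (Gp M)) (D : S → S → Set (Gp M)),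
    (∀ s t, s ≠ t → M.M s t ≠ 0 → gen M t ∈ Sg s ∧ (1 : Gp M) ∈ D s t) ∧
    (∀ s t, ∀ x ∈ D s t, x⁻¹ ∈ D t s ∧ ∀ u ∈ Sg s, ∀ v ∈ Sg t, u * x * v ∈ D s t) ∧
    (∀ s, ClosedIn (Sg s : Set (Gp M))) ∧
    (∀ s t, s ≠ t → M.M s t ≠ 0 → ClosedIn (D s t)) ∧
    (∀ s ∈ C, ∀ a ∈ P M C, a ∈ Sg s → a ∈ P M (C \ {s})) ∧
    (∀ s ∈ C, ∀ t ∈ C, s ≠ t → ∀ a ∈ P M C, a ∈ D s t →
      ∃ b ∈ P M (C \ {s}), ∃ c ∈ P M (C \ {t}), a = b * c)

/-- UNF: the abstract unfolding theorem. -/
def UnfStmt : Prop :=
  ∀ {S : Type} [Finite S] (M : CoxeterMatrix S), (∀ C : Set S, Clique M C → Det M C) → RF (Gp M)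

/-- DPR: products of detectors. -/
def DprStmt : Prop :=
  ∀ {S : Type} (M : CoxeterMatrix S) (C : Set S) {ι : Type} (b : S → ι),
    (∀ s ∈ C, ∀ t ∈ C, b s ≠ b t → M.M s t = 2) → (∀ i, Det M {s | s ∈ C ∧ b s = i}) → Det M C

/-! ## Part B: Coxeter groups and parabolic subgroups

`Pool.Agent.Helper38_Coxeter.rho cs` is the geometric representation on `S →₀ ℝ`, `sr s` the simple
root, `NN v` means that all coordinates are nonnegative. -/

open Pool.Agent.Helper38_Coxeter in
/-- The support of `v` is contained in `D`. -/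
def SuppIn {S : Type} (D : Set S) (v : S →₀ ℝ) : Prop := ∀ s, s ∉ D → v s = 0

open Pool.Agent.Helper38_Coxeter in
/-- `d` is minimal in its coset `W_D d`. -/
def Min {S : Type} (M : CoxeterMatrix S) (D : Set S) (d : M.Group) : Prop :=
  ∀ t ∈ D, NN (rho M.toCoxeterSystem d⁻¹ (sr t))

open Pool.Agent.Helper38_Coxeter in
/-- CHR: characterization of the parabolic subgroup. -/
def ChrStmt : Prop :=
  ∀ {S : Type} (M : CoxeterMatrix S) (D : Set S) (w : M.Group),
    w ∈ WP M D ↔ ∀ v : S →₀ ℝ, SuppIn D (rho M.toCoxeterSystem w v - v)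

/-- DEC: coset decomposition. -/
def DecStmt : Prop :=
  ∀ {S : Type} (M : CoxeterMatrix S) (D : Set S), ∃ p : M.Group → M.Group,
    (∀ w, p w ∈ WP M D) ∧ (∀ w, Min M D ((p w)⁻¹ * w)) ∧
    (∀ a ∈ WP M D, ∀ d, Min M D d → p (a * d) = a) ∧
    (∀ U : Set S, ∀ w ∈ WP M U, p w ∈ WP M U)

open Pool.Agent.Helper38_Coxeter in
/-- DEO: Deodhar's lemma. -/
def DeoStmt : Prop :=
  ∀ {S : Type} (M : CoxeterMatrix S) (D : Set S) (d : M.Group) (s : S), Min M D d →
    (∃ t ∈ D, rho M.toCoxeterSystem d (sr s) = sr t ∧ d * M.simple s = M.simple t * d) ∨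
    (¬ SuppIn D (rho M.toCoxeterSystem d (sr s)) ∧ Min M D (d * M.simple s))

/-- QUO: the homomorphism to the Coxeter group. -/
def QuoStmt : Prop :=
  ∀ {S : Type} (M : CoxeterMatrix S), ∃ q : Gp M →* M.Group, ∀ s, q (gen M s) = M.simple s

/-- WIN: intersections of parabolic subgroups of a Coxeter group. -/
def WinStmt : Prop :=
  ∀ {S : Type} (M : CoxeterMatrix S) (D U : Set S) (x : M.Group), x ∈ WP M D → x ∈ WP M U →
    x ∈ WP M (D ∩ U)

/-- WDC: the double coset property in a Coxeter group. -/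
def WdcStmt : Prop :=
  ∀ {S : Type} (M : CoxeterMatrix S) (D U V : Set S) (x u v : M.Group), x ∈ WP M D →
    u ∈ WP M U → v ∈ WP M V → x = u * v → ∃ a ∈ WP M (D ∩ U), ∃ b ∈ WP M (D ∩ V), x = a * b

/-- The parabolic projection data: for a Coxeter group and a subset `D` of the generators, each
`w` is `p w * d w`, with `p w` in the parabolic subgroup and `d w` minimal in its coset; `c w s`
is `none` if `d (w s) = d w * s`, and `some t` if `d w * s = t * d w`. -/
structure Proj {S : Type} (M : CoxeterMatrix S) (D : Set S) where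
  p : M.Group → M.Group
  c : M.Group → S → Option D
  p_mem : ∀ w, p w ∈ WP M D
  p_of_mem : ∀ w ∈ WP M D, p w = w
  p_one : p 1 = 1
  /-- no wall of `D` is crossed -/
  p_none : ∀ w s, c w s = none → p (w * M.simple s) = p w
  /-- the wall between `w` and `w s` belongs to `D` and is crossed by the letter `t` -/
  p_some : ∀ w s (t : D), c w s = some t → p (w * M.simple s) = p w * M.simple t.1
  /-- crossing back -/
  c_back : ∀ w s, c (w * M.simple s) s = c w s
  /-- the letter stays in `U` -/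
  c_mem : ∀ (U : Set S) (w : M.Group) (s : S) (t : D), w ∈ WP M U → s ∈ U → c w s = some t →
    t.1 ∈ U
  /-- inside the parabolic subgroup -/
  c_in : ∀ (w : M.Group) (s : D), w ∈ WP M D → c w s.1 = some s
  /-- the braid relations: one, none or all letters of a residue -/
  c_braid : ∀ (w : M.Group) (s t : S), s ≠ t → M.M s t ≠ 0 →
    ((List.range (M.M s t)).map (fun k => (c (w * (alt k (M.simple s) (M.simple t)))
        (if Even k then s else t)).elim (1 : Gp (res M D)) (gen (res M D)))).prod =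
    ((List.range (M.M s t)).map (fun k => (c (w * (alt k (M.simple t) (M.simple s)))
        (if Even k then t else s)).elim (1 : Gp (res M D)) (gen (res M D)))).prod

/-- PRJ: existence of the parabolic projection. -/
def PrjStmt : Prop :=
  ∀ {S : Type} [Finite S] (M : CoxeterMatrix S) (D : Set S), Nonempty (Proj M D)

/-- COC: the parabolic projection cocycle of the Artin group. -/
def CocStmt : Prop :=
  ∀ {S : Type} [Finite S] (M : CoxeterMatrix S) (D : Set S) (q : Gp M →* M.Group),
    (∀ s, q (gen M s) = M.simple s) → ∃ (c : Gp M → M.Group → Gp (res M D))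
      (p : M.Group → M.Group),
      (∀ x y w, c (x * y) w = c x w * c y (w * q x)) ∧
      (∀ (s : D), ∀ w ∈ WP M D, c (gen M s.1) w = gen (res M D) s) ∧
      (∀ (U : Set S) (s : S), s ∈ U → ∀ w ∈ WP M U, c (gen M s) w = 1 ∨
        ∃ t : D, t.1 ∈ U ∧ c (gen M s) w = gen (res M D) t) ∧
      (∀ Φ : Gp (res M D) →* Gp M, (∀ s, Φ (gen (res M D) s) = gen M s.1) →
        ∀ x w, q (Φ (c x w)) = (p w)⁻¹ * p (w * q x))

/-- VDL: the Artin group of `D` embeds (van der Lek). -/
def VdlStmt : Prop :=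
  ∀ {S : Type} [Finite S] (M : CoxeterMatrix S) (D : Set S) (Φ : Gp (res M D) →* Gp M),
    (∀ s, Φ (gen (res M D) s) = gen M s.1) → Function.Injective Φ

/-- RTR: the pure Artin group of `D` is a retract of the pure Artin group, compatibly with the
other parabolic subgroups. -/
def RtrStmt : Prop :=
  ∀ {S : Type} [Finite S] (M : CoxeterMatrix S) (D : Set S) (q : Gp M →* M.Group),
    (∀ s, q (gen M s) = M.simple s) → ∃ r : q.ker →* q.ker,
      (∀ x, (r x).1 ∈ P M D) ∧ (∀ x : q.ker, x.1 ∈ P M D → r x = x) ∧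
      (∀ (U : Set S) (x : q.ker), x.1 ∈ P M U → (r x).1 ∈ P M (D ∩ U))

/-- ADC: the double coset property in an Artin group. -/
def AdcStmt : Prop :=
  ∀ {S : Type} [Finite S] (M : CoxeterMatrix S) (D U V : Set S) (x u v : Gp M), x ∈ P M D →
    u ∈ P M U → v ∈ P M V → x = u * v → ∃ a ∈ P M (D ∩ U), ∃ b ∈ P M (D ∩ V), x = a * b

/-- CLO: for a finite Coxeter group the products of two parabolic subgroups of the Artin group are
closed, if the Artin group is residually finite. -/
def CloStmt : Prop :=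
  ∀ {S : Type} [Finite S] (M : CoxeterMatrix S), Finite M.Group → RF (Gp M) →
    ∀ U V : Set S, ClosedMul (P M U) (P M V)

/-! ## Part C: the theorems -/

/-- INJ: a homomorphism which sends the generators in `C` injectively to generators, with the same
labels, is injective on the subgroup generated by `C`, and compatible with subsets. -/
def InjStmt : Prop :=
  ∀ {S S' : Type} [Finite S] [Finite S'] (M : CoxeterMatrix S) (M' : CoxeterMatrix S')
    (θ : Gp M →* Gp M') (C : Set S) (f : S → S'), (∀ s ∈ C, θ (gen M s) = gen M' (f s)) →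
    (∀ s ∈ C, ∀ t ∈ C, s ≠ t → f s ≠ f t ∧ M'.M (f s) (f t) = M.M s t) →
    (∀ a ∈ P M C, θ a = 1 → a = 1) ∧
    (∀ C' ⊆ C, ∀ z ∈ P M' (f '' C'), ∃ a ∈ P M C', θ a = z) ∧
    (∀ C' ⊆ C, ∀ a ∈ P M C', θ a ∈ P M' (f '' C'))

/-- COL: a colouring of `M` which is faithful on the clique `C` gives a detector. The image of a
generator is a generator or trivial. -/
def ColStmt : Prop :=
  ∀ {S : Type} [Finite S] (M : CoxeterMatrix S) (C : Set S) {S' : Type} [Finite S']
      (M' : CoxeterMatrix S') (θ : Gp M →* Gp M') (f : S → Option S'),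
      (∀ s, θ (gen M s) = (f s).elim 1 (gen M')) →
      (∀ s ∈ C, ∀ t ∈ C, s ≠ t → ∀ s' t', f s = some s' → f t = some t' →
        s' ≠ t' ∧ M'.M s' t' = M.M s t) →
      (∀ s ∈ C, f s ≠ none ∧ ∀ t, t ≠ s → M.M s t ≠ 0 → f t ≠ f s) →
      (∀ x y : S', ClosedMul (P M' {z | z ≠ x}) (P M' {z | z ≠ y})) → Det M C

/-- REDA: if all Artin groups are residually finite, double cosets of maximal parabolic subgroups
are closed. -/
def RedaStmt : Prop :=
  (∀ (S : Type) [Finite S] (M : CoxeterMatrix S), RF (Gp M)) →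
    ∀ (S : Type) [Finite S] (M : CoxeterMatrix S) (x y : S),
      ClosedMul (P M {z | z ≠ x}) (P M {z | z ≠ y})

/-- REDB: conversely. -/
def RedbStmt : Prop :=
  (∀ (S : Type) [Finite S] (M : CoxeterMatrix S), (∀ s t, M.M s t ≠ 0) → ∀ x y : S,
      ClosedMul (P M {z | z ≠ x}) (P M {z | z ≠ y})) →
    ∀ (S : Type) [Finite S] (M : CoxeterMatrix S), RF (Gp M)

/-! ## Part D: classical types -/

/-- The two matrices are equal up to a renumbering of the generators. -/
def IsoTo {S T : Type} (M : CoxeterMatrix S) (N : CoxeterMatrix T) : Prop :=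
  ∃ e : S ≃ T, ∀ s t, M.M s t = N.M (e s) (e t)

/-- The Coxeter matrix of type `D_(n+1)`: the path `0, 1, ..., n-1` and one more vertex, joined to
the vertex `1`. -/
def Dm (n : ℕ) : CoxeterMatrix (Option (Fin n)) where
  M := Matrix.of fun x y => match x, y with
    | none, none => 1
    | none, some j => if j.1 = 1 then 3 else 2
    | some i, none => if i.1 = 1 then 3 else 2
    | some i, some j => (CoxeterMatrix.A n).M i j
  isSymm := by
    ext x y
    rcases x with _ | x <;> rcases y with _ | y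
    · rfl
    · rfl
    · rfl
    · exact (CoxeterMatrix.A n).symmetric y x
  diagonal x := by
    rcases x with _ | x
    · rfl
    · exact (CoxeterMatrix.A n).diagonal x
  off_diagonal x y h := by
    rcases x with _ | x <;> rcases y with _ | y
    · exact absurd rfl h
    · show (if y.1 = 1 then 3 else 2) ≠ 1
      split_ifs <;> norm_num
    · show (if x.1 = 1 then 3 else 2) ≠ 1
      split_ifs <;> norm_num
    · exact (CoxeterMatrix.A n).off_diagonal x y (fun h' => h (by rw [h']))

/-- Every irreducible component is of type `A`, `B`, `D` or a dihedral one. -/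
def Classical {S : Type} (M : CoxeterMatrix S) : Prop :=
  ∃ (ι : Type) (_ : Finite ι) (b : S → ι), (∀ s t, b s ≠ b t → M.M s t = 2) ∧
    ∀ i, (∃ n, IsoTo (res M {s | b s = i}) (CoxeterMatrix.A n)) ∨
      (∃ n, IsoTo (res M {s | b s = i}) (CoxeterMatrix.B n)) ∨
      (∃ n, IsoTo (res M {s | b s = i}) (Dm n)) ∨
      (∃ m, IsoTo (res M {s | b s = i}) (CoxeterMatrix.I m))

/-- BRB: from braid groups to type `B`: `A(B_(n+1))` is a semidirect product of a free group of rank
`n + 1` by `A(A_n)`. -/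
def BrbStmt : Prop := ∀ n : ℕ, RF (Gp (CoxeterMatrix.A n)) → RF (Gp (CoxeterMatrix.B (n + 1)))

/-- BST: type `B_n` inside type `A_n` (the stabilizer of the last point). -/
def BstStmt : Prop := ∀ (n : ℕ) (j : Gp (CoxeterMatrix.B n) →* Gp (CoxeterMatrix.A n)),
    (∀ i : Fin n, j (gen _ i) = if i.1 + 1 = n then gen _ i ^ 2 else gen _ i) →
    Function.Injective j ∧
    (∀ q : Gp (CoxeterMatrix.A n) →* Equiv.Perm (Fin (n + 1)),
      (∀ i, q (gen _ i) = Equiv.swap i.castSucc i.succ) →
      ∀ (D : Set (Fin n)), ∀ x ∈ P (CoxeterMatrix.A n) D, q x (Fin.last n) = Fin.last n →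
        ∃ b ∈ P (CoxeterMatrix.B n) D, j b = x) ∧
    (RF (Gp (CoxeterMatrix.B n)) → RF (Gp (CoxeterMatrix.A n)))

/-- BRD: from braid groups to type `D`: `A(D_(n+1))` is a semidirect product of a free group of rank
`n` by `A(A_n)`. -/
def BrdStmt : Prop := ∀ n : ℕ, RF (Gp (CoxeterMatrix.A n)) → RF (Gp (Dm n))

/-- FNA, FNB, FND, FNI: finite Coxeter groups. -/
def FnaStmt : Prop := ∀ n : ℕ, Finite (CoxeterMatrix.A n).Group
def FnbStmt : Prop := ∀ n : ℕ, Finite (CoxeterMatrix.B n).Group
def FndStmt : Prop := ∀ n : ℕ, Finite (Dm n).Group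
def FniStmt : Prop := ∀ m : ℕ, Finite (CoxeterMatrix.I m).Group

/-- FNP: products of finite Coxeter groups. -/
def FnpStmt : Prop :=
  ∀ {S : Type} [Finite S] (M : CoxeterMatrix S) (ι : Type) [Finite ι] (b : S → ι),
    (∀ s t, b s ≠ b t → M.M s t = 2) → (∀ i, Finite (res M {s | b s = i}).Group) →
    Finite M.Group

/-- RFP: products of Artin groups. -/
def RfpStmt : Prop :=
  ∀ {S : Type} [Finite S] (M : CoxeterMatrix S) (ι : Type) [Finite ι] (b : S → ι),
    (∀ s t, b s ≠ b t → M.M s t = 2) → (∀ i, RF (Gp (res M {s | b s = i}))) → RF (Gp M)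

/-- CLA: classical types. -/
def ClaStmt : Prop :=
  ∀ {S : Type} [Finite S] (M : CoxeterMatrix S), Classical M → Finite M.Group ∧ RF (Gp M)

end Unf
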