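import Pool.Agent.Helper12_UNF.Stmts

set_option autoImplicit false

/-!
# Squad UNF (MP_61f49c_al), part 2: detectors for cliques of type A, B and I2

`O k` is the free product of `k` groups of order two (the Coxeter group with all labels infinite).
-/

namespace Unf

open Art

/-! ## Part E: the universal Coxeter group and the Artin action -/

/-- All labels infinite. -/
def Om (k : ℕ) : CoxeterMatrix (Fin k) where
  M := Matrix.of fun i j => if i = j then 1 else 0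
  isSymm := by
    ext i j
    show (if j = i then 1 else 0) = (if i = j then 1 else 0)
    simp only [eq_comm]
  diagonal i := by simp
  off_diagonal i j h := by simp [h]

/-- The free product of `k` groups of order two. -/
abbrev O (k : ℕ) : Type := (Om k).Group

/-- The generators. -/
def ox {k : ℕ} (i : Fin k) : O k := (Om k).simple i

/-- The element given by a word. -/
def wp {k : ℕ} (l : List (Fin k)) : O k := (l.map ox).prod

/-- The product `x_0 ... x_(j-1)`. -/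
def pre (k j : ℕ) : O k := wp ((List.finRange k).take j)

/-- Reduced words: no letter is repeated immediately. -/
def Rw {k : ℕ} (l : List (Fin k)) : Prop := l.IsChain (· ≠ ·)

/-- NFO: normal forms. -/
def NfoStmt : Prop := ∀ (k : ℕ) (g : O k), ∃! l : List (Fin k), Rw l ∧ wp l = g

/-- The Artin action: `σ_i` maps `x_i` to `x_i x_(i+1) x_i` and `x_(i+1)` to `x_i`. -/
def IsArt (n : ℕ) (Ψ : Gp (CoxeterMatrix.A n) →* MulAut (O (n + 1))) : Prop :=
  ∀ i : Fin n, Ψ (gen _ i) (ox i.castSucc) = ox i.castSucc * ox i.succ * ox i.castSucc ∧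
    Ψ (gen _ i) (ox i.succ) = ox i.castSucc ∧
    ∀ j : Fin (n + 1), j ≠ i.castSucc → j ≠ i.succ → Ψ (gen _ i) (ox j) = ox j

/-- OAC: the Artin action exists. -/
def OacStmt : Prop := ∀ n : ℕ, ∃ Ψ, IsArt n Ψ

/-- The reduced word of `g` starts with `p`. -/
def Cone {k : ℕ} (p : List (Fin k)) (g : O k) : Prop := ∃ q, Rw (p ++ q) ∧ wp (p ++ q) = g

/-- ORD: the planar order is invariant under the Artin action. -/
def OrdStmt : Prop :=
  ∀ n : ℕ, ∃ lt : O (n + 1) → O (n + 1) → Prop,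
    (∀ g, ¬ lt g g) ∧ (∀ g h k, lt g h → lt h k → lt g k) ∧
    (∀ (p : List (Fin (n + 1))) (g w h : O (n + 1)), p ≠ [] → Cone p g → Cone p h → lt g w →
      lt w h → Cone p w) ∧
    (∀ i j k : Fin (n + 1), i.1 + 1 = j.1 → j.1 + 1 = k.1 →
      lt (ox j) (ox j * ox i) ∧ lt (ox j * ox i) (ox k)) ∧
    (∀ Ψ, IsArt n Ψ → ∀ a g h, g ≠ 1 → h ≠ 1 → lt g h → lt (Ψ a g) (Ψ a h))

/-- `A` is the reflection `w x_i w⁻¹`, and `w x_i` is reduced. -/
def HW {k : ℕ} (A : O k) (w : List (Fin k)) (i : Fin k) : Prop :=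
  Rw (w ++ [i]) ∧ A = wp w * ox i * (wp w)⁻¹

/-- Reflections. -/
def Refl {k : ℕ} (A : O k) : Prop := ∃ w i, HW A w i

/-- The tree order: `B` lies beyond the edge of `A`. -/
def TL {k : ℕ} (A B : O k) : Prop := ∃ w i w' i', HW A w i ∧ HW B w' i' ∧ (w ++ [i]) <+: w'

/-- The half length. -/
noncomputable def hl {k : ℕ} (A : O k) : ℕ :=
  sInf {m | ∃ (w : List (Fin k)) (i : Fin k), w.length = m ∧ A = wp w * ox i * (wp w)⁻¹}

/-- HLN: half lengths and the tree order. -/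
def HlnStmt : Prop :=
  ∀ k : ℕ,
    (∀ (A : O k) w i w' i', HW A w i → HW A w' i' → w = w' ∧ i = i') ∧
    (∀ (A : O k) w i, HW A w i → hl A = w.length) ∧
    (∀ (w : List (Fin k)) (i : Fin k), Refl (wp w * ox i * (wp w)⁻¹) ∧
      hl (wp w * ox i * (wp w)⁻¹) ≤ w.length) ∧
    (∀ A B : O k, TL A B → hl (A * B * A) < hl B ∧ ¬ TL B A) ∧
    (∀ A B : O k, Refl A → Refl B → A ≠ B → ¬ TL A B → hl B < hl (A * B * A)) ∧
    (∀ A B C : O k, TL A B → TL B C → TL A C ∧ hl (A * (B * C * B) * A) < hl C) ∧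
    (∀ A B C : O k, TL A B → TL C B → A ≠ C → TL A C ∨ TL C A)

/-- A list of reflections in which neighbours are distinct and not comparable. -/
def Irr {k : ℕ} (l : List (O k)) : Prop :=
  (∀ A ∈ l, Refl A) ∧ l.IsChain (fun A B => A ≠ B ∧ ¬ TL A B ∧ ¬ TL B A)

/-- IRR: irreducible lists with a product which starts with distinct letters. -/
def IrrStmt : Prop :=
  ∀ (k : ℕ) (l : List (O k)) (p q : List (Fin k)), Irr l → Rw (p ++ q) → wp (p ++ q) = l.prod →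
    p.Nodup → (∀ a ∈ p, a ∉ q) → (p.length < l.length ∨ (p.length = l.length ∧ q = [])) →
    ∃ l', l = p.map ox ++ l'

/-- RDC: reduction of a segment by the braid generators of the segment. -/
def RdcStmt : Prop :=
  ∀ (n : ℕ) (Ψ), IsArt n Ψ → ∀ (a : Gp (CoxeterMatrix.A n)) (lo hi : ℕ), lo ≤ hi → hi ≤ n →
    ∃ b ∈ P (CoxeterMatrix.A n) {k | lo ≤ k.1 ∧ k.1 < hi},
      Irr (((List.finRange (n + 1)).filter (fun j => lo ≤ j.1 ∧ j.1 ≤ hi)).map
        (fun j => Ψ (a * b) (ox j)))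

/-- CF4: the excluded configuration. -/
def Cf4Stmt : Prop :=
  ∀ (n : ℕ) (Ψ), IsArt n Ψ → ∀ (a : Gp (CoxeterMatrix.A n)) (i j k : Fin (n + 1)),
    i.1 + 1 = j.1 → j.1 + 1 = k.1 →
    ¬ (TL (Ψ a (ox j)) (Ψ a (ox i)) ∧ TL (Ψ a (ox j)) (Ψ a (ox k)))

/-- MOR: the Artin action on the free product of groups of order two is faithful. -/
def MorStmt : Prop := ∀ (n : ℕ) (Ψ), IsArt n Ψ → ∀ a, Ψ a = 1 → a = 1

/-- HTA: stabilizers and double cosets of parabolic subgroups of the braid group. -/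
def HtaStmt : Prop :=
  ∀ (n : ℕ) (Ψ), IsArt n Ψ →
    (∀ (I : Set (Fin n)) (a : Gp (CoxeterMatrix.A n)),
      (∀ k ∈ I, Ψ a (pre (n + 1) (k.1 + 1)) = pre (n + 1) (k.1 + 1)) →
      a ∈ P (CoxeterMatrix.A n) Iᶜ) ∧
    (∀ (s t : Fin n), s < t → ∀ a : Gp (CoxeterMatrix.A n),
      (pre (n + 1) (s.1 + 1))⁻¹ * Ψ a (pre (n + 1) (t.1 + 1)) ∈
        Subgroup.closure {y | ∃ j : Fin (n + 1), s.1 < j.1 ∧ y = ox j} →
      ∃ b ∈ P (CoxeterMatrix.A n) {k | s < k}, ∃ c ∈ P (CoxeterMatrix.A n) {k | k < t},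
        a = b * c) ∧
    (∀ (s t : Fin n), t < s → ∀ a : Gp (CoxeterMatrix.A n),
      Ψ a (pre (n + 1) (t.1 + 1)) ∈
        Subgroup.closure {y | ∃ j : Fin (n + 1), j.1 ≤ s.1 ∧ y = ox j} →
      ∃ b ∈ P (CoxeterMatrix.A n) {k | k < s}, ∃ c ∈ P (CoxeterMatrix.A n) {k | t < k},
        a = b * c)

/-! ## Part F: the twist action -/

/-- The generators: the edges `(i, j)` of the curve `i`, and the arc of the curve `i`. -/
abbrev Xg (N : ℕ) : Type := (Fin N × Fin (N + 1)) ⊕ Fin N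

def eg {N : ℕ} (i : Fin N) (j : Fin (N + 1)) : FreeGroup (Xg N) := FreeGroup.of (Sum.inl (i, j))

def hg {N : ℕ} (i : Fin N) : FreeGroup (Xg N) := FreeGroup.of (Sum.inr i)

/-- The curve `i`, starting with the edge `r` (in cyclic order). -/
def cyc {N : ℕ} (i : Fin N) (r : ℕ) : FreeGroup (Xg N) :=
  (((List.finRange (N + 1)).rotate r).map (eg i)).prod

/-- The twists. -/
structure Tw {N : ℕ} (adj : Fin N → Fin N → Prop) (T : Fin N → MulAut (FreeGroup (Xg N))) :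
    Prop where
  out : ∀ i t : Fin N, adj i t → i < t → T i (eg t i.succ) = cyc i (t.1 + 1) * eg t i.succ
  inn : ∀ i t : Fin N, adj i t → t < i →
    T i (eg t i.castSucc) = eg t i.castSucc * (cyc i (t.1 + 1))⁻¹
  hh : ∀ i : Fin N, T i (hg i) = cyc i 0 * hg i
  h_fix : ∀ i t : Fin N, t ≠ i → T i (hg t) = hg t
  e_fix : ∀ (i t : Fin N) (j : Fin (N + 1)), ¬ (adj i t ∧ i < t ∧ j = i.succ) →
    ¬ (adj i t ∧ t < i ∧ j = i.castSucc) → T i (eg t j) = eg t j

/-- TWI: the twists exist and satisfy the braid relations. -/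
def TwiStmt : Prop :=
  ∀ (N : ℕ) (adj : Fin N → Fin N → Prop), (∀ i, ¬ adj i i) → (∀ i j, adj i j → adj j i) →
    ∃ T, Tw adj T ∧ (∀ i j, adj i j → T i * T j * T i = T j * T i * T j) ∧
      (∀ i j, i ≠ j → ¬ adj i j → T i * T j = T j * T i)

/-- PTH: the product of the even and the product of the odd generators of a path of `m` braid
generators satisfy the relation of length `m + 1`. -/
def PthStmt : Prop :=
  ∀ {G : Type} [Group G] (m : ℕ) (g : ℕ → G),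
    (∀ i, i + 1 < m → g i * g (i + 1) * g i = g (i + 1) * g i * g (i + 1)) →
    (∀ i j, i + 2 ≤ j → j < m → g i * g j = g j * g i) →
    alt (m + 1) (((List.range m).filter (fun i => i % 2 = 0)).map g).prod
      (((List.range m).filter (fun i => i % 2 = 1)).map g).prod =
    alt (m + 1) (((List.range m).filter (fun i => i % 2 = 1)).map g).prod
      (((List.range m).filter (fun i => i % 2 = 0)).map g).prod

/-- The unfolded graph: `K` copies of every generator. -/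
def Adj {S : Type} (M : CoxeterMatrix S) (K : ℕ) (x y : S × Fin K) : Prop :=
  x.1 ≠ y.1 ∧ M.M x.1 y.1 ≠ 0 ∧ (x.2.1 + 1 = y.2.1 ∨ y.2.1 + 1 = x.2.1) ∧
    x.2.1 / (M.M x.1 y.1 - 1) = y.2.1 / (M.M x.1 y.1 - 1)

/-- THK: every Artin group maps to the small type Artin group of its unfolded graph. -/
def ThkStmt : Prop :=
  ∀ {S : Type} [Finite S] (M : CoxeterMatrix S) (K : ℕ),
    (∀ s t, s ≠ t → M.M s t ≠ 0 → (M.M s t - 1) ∣ K) →
    ∀ {G : Type} [Group G] (T : S × Fin K → G),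
      (∀ x y, Adj M K x y → T x * T y * T x = T y * T x * T y) →
      (∀ x y, x ≠ y → ¬ Adj M K x y → T x * T y = T y * T x) →
      ∃ θ : Gp M →* G, ∀ s, θ (gen M s) = (List.ofFn (fun u : Fin K => T (s, u))).prod

/-- CLG: closed sets for an action on a free group. -/
def ClgStmt : Prop :=
  ∀ {G X : Type} [Group G] [Finite X] (θ : G →* MulAut (FreeGroup X)) (Y : Set X)
    (f : FreeGroup X),
    ClosedIn {g | θ g f = f} ∧
    ClosedIn {g | θ g f ∈ Subgroup.closure (FreeGroup.of '' Y)} ∧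
    ClosedIn {g | (θ g)⁻¹ f ∈ Subgroup.closure (FreeGroup.of '' Y)}

/-- The hypotheses on a path `0, ..., n-1` of curves, with the action of the braid group. -/
structure PathAct (N n : ℕ) (hn : n ≤ N) (adj : Fin N → Fin N → Prop)
    (T : Fin N → MulAut (FreeGroup (Xg N)))
    (Φ : Gp (CoxeterMatrix.A n) →* MulAut (FreeGroup (Xg N))) : Prop where
  irr : ∀ i, ¬ adj i i
  symm : ∀ i j, adj i j → adj j i
  tw : Tw adj T
  path : ∀ i j : Fin N, i.1 < n → j.1 < n → (adj i j ↔ (i.1 + 1 = j.1 ∨ j.1 + 1 = i.1))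
  act : ∀ i : Fin n, Φ (gen _ i) = T (Fin.castLE hn i)

/-- EVL: evaluation. -/
def EvlStmt : Prop :=
  ∀ (N n : ℕ) (hn : n ≤ N) adj T Φ, PathAct N n hn adj T Φ → ∀ Ψ, IsArt n Ψ →
    ∃ ev : FreeGroup (Xg N) →* O (n + 1),
      (∀ (i : Fin N) (j : Fin (N + 1)), i.1 < n → ev (eg i j) =
        if j.1 = i.1 then (pre (n + 1) i.1)⁻¹ else if j.1 = i.1 + 1 then pre (n + 1) (i.1 + 2)
          else 1) ∧
      (∀ i : Fin N, i.1 < n → ev (hg i) = (pre (n + 1) (i.1 + 1))⁻¹) ∧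
      ∀ a f, ev (Φ a f) = Ψ a (ev f)

/-- The start of the edge `j` of the curve `i`. -/
def vst {N : ℕ} {Q : Type} (γ : Fin N → ℕ → Q) (δ : Fin N → Q) (i : Fin N) (j : Fin (N + 1)) : Q :=
  if j.1 = 0 then δ i else γ i (j.1 - 1)

/-- The end of the edge `j` of the curve `i`. -/
def ven {N : ℕ} {Q : Type} (γ : Fin N → ℕ → Q) (δ : Fin N → Q) (i : Fin N) (j : Fin (N + 1)) : Q :=
  if j.1 = N then δ i else γ i j.1

/-- GAU: the gauge lemma. -/
def GauStmt : Prop :=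
  ∀ (N : ℕ) (adj : Fin N → Fin N → Prop) (T : Fin N → MulAut (FreeGroup (Xg N))),
    (∀ i, ¬ adj i i) → (∀ i j, adj i j → adj j i) → Tw adj T →
    ∀ {Q : Type} [Group Q] (φ φ' : FreeGroup (Xg N) →* Q) (γ : Fin N → ℕ → Q) (δ : Fin N → Q),
      (∀ i k : Fin N, adj i k → γ i k.1 = γ k i.1) →
      (∀ i j, φ' (eg i j) = (vst γ δ i j)⁻¹ * φ (eg i j) * ven γ δ i j) →
      (∀ i, φ' (hg i) = (δ i)⁻¹ * φ (hg i)) →
      ∀ a ∈ Subgroup.closure (Set.range T), ∀ t, φ' (a (hg t)) = (δ t)⁻¹ * φ (a (hg t))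

/-- GEV: from the twist action to the Artin action. -/
def GevStmt : Prop :=
  ∀ (N n : ℕ) (hn : n ≤ N) adj T Φ, PathAct N n hn adj T Φ → ∀ Ψ, IsArt n Ψ →
    (∀ (a : Gp (CoxeterMatrix.A n)) (s : Fin N), s.1 < n → Φ a (hg s) = hg s →
      Ψ a (pre (n + 1) (s.1 + 1)) = pre (n + 1) (s.1 + 1)) ∧
    (∀ (a : Gp (CoxeterMatrix.A n)) (t : Fin N) (lo hi : ℕ) (I : Set (Fin N)),
      lo ≤ t.1 → t.1 < hi → hi ≤ n → (lo = 0 ∨ ∃ i ∈ I, i.1 + 1 = lo) →
      (hi = n ∨ ∃ i ∈ I, i.1 = hi) →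
      Φ a (hg t) ∈ Subgroup.closure (FreeGroup.of ''
        ({x : Xg N | ∃ i, i ∉ I ∧ (x = Sum.inr i ∨ ∃ j, x = Sum.inl (i, j))})) →
      (pre (n + 1) (t.1 + 1))⁻¹ * Ψ a (pre (n + 1) (t.1 + 1)) ∈
        Subgroup.closure {y | ∃ j : Fin (n + 1), lo ≤ j.1 ∧ j.1 ≤ hi ∧ y = ox j})

/-! ## Part G: detectors -/

/-- The subgroup generated by the edges and arcs of the curves which do not belong to `s`. -/
def FS {S : Type} {K N : ℕ} (e : S × Fin K ≃ Fin N) (s : S) : Subgroup (FreeGroup (Xg N)) :=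
  Subgroup.closure (FreeGroup.of ''
    ({x : Xg N | ∃ i, (e.symm i).1 ≠ s ∧ (x = Sum.inr i ∨ ∃ j, x = Sum.inl (i, j))}))

/-- GEO: detectors from the twist action. -/
def GeoStmt : Prop :=
  ∀ {S : Type} [Finite S] (M : CoxeterMatrix S) (C : Set S) (K N : ℕ) (e : S × Fin K ≃ Fin N)
    (T : Fin N → MulAut (FreeGroup (Xg N))) (θ : Gp M →* MulAut (FreeGroup (Xg N))),
    Tw (fun i j => Adj M K (e.symm i) (e.symm j)) T →
    (∀ s, θ (gen M s) = (List.ofFn (fun u : Fin K => T (e (s, u)))).prod) →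
    (∀ s ∈ C, ∀ a ∈ P M C, (∀ u, θ a (hg (e (s, u))) = hg (e (s, u))) → a ∈ P M (C \ {s})) →
    (∀ s ∈ C, ∀ t ∈ C, s ≠ t → ∀ a ∈ P M C, (∀ u, θ a (hg (e (t, u))) ∈ FS e s) →
      (∀ u, (θ a)⁻¹ (hg (e (s, u))) ∈ FS e t) →
      ∃ b ∈ P M (C \ {s}), ∃ c ∈ P M (C \ {t}), a = b * c) →
    Det M C

open Classical in
/-- LOC: localization to a path component. -/
def LocStmt : Prop :=
  ∀ {S J : Type} [Finite S] (M : CoxeterMatrix S) (W : CoxeterMatrix J) (r : J → S)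
    (K N n : ℕ) (hn : n ≤ N) (e : S × Fin K ≃ Fin N)
    (T : Fin N → MulAut (FreeGroup (Xg N))) (θ : Gp M →* MulAut (FreeGroup (Xg N)))
    (Φ : Gp (CoxeterMatrix.A n) →* MulAut (FreeGroup (Xg N)))
    (κ : Gp W →* Gp M) (fold : Gp W →* Gp (CoxeterMatrix.A n)),
    PathAct N n hn (fun i j => Adj M K (e.symm i) (e.symm j)) T Φ →
    (∀ i j, i ≠ j → ¬ Adj M K (e.symm i) (e.symm j) → T i * T j = T j * T i) →
    (∀ s, θ (gen M s) = (List.ofFn (fun u : Fin K => T (e (s, u)))).prod) →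
    (∀ j, κ (gen W j) = gen M (r j)) →
    (∀ j, fold (gen W j) = (((List.finRange n).filter
      (fun i => (e.symm (Fin.castLE hn i)).1 = r j)).map (gen _)).prod) →
    (∀ j, ∀ y : S × Fin K, y.1 = r j → (∀ i : Fin n, y ≠ e.symm (Fin.castLE hn i)) →
      ∀ i : Fin n, ¬ Adj M K y (e.symm (Fin.castLE hn i))) →
    ∀ (a : Gp W) (i : Fin n),
      θ (κ a) (hg (Fin.castLE hn i)) = Φ (fold a) (hg (Fin.castLE hn i))

/-- DTA: cliques of type A. -/
def DtaStmt : Prop :=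
  ∀ {S : Type} [Finite S] (M : CoxeterMatrix S) (C : Set S) (n : ℕ),
    IsoTo (res M C) (CoxeterMatrix.A n) → Det M C

/-- BFD: folding for type B. -/
def BfdStmt : Prop :=
  ∀ (m : ℕ) (Ψ) (Ψ'), IsArt (m + 1) Ψ → IsArt (2 * m + 1) Ψ' →
    ∃ (fold : Gp (CoxeterMatrix.B (m + 1)) →* Gp (CoxeterMatrix.A (2 * m + 1)))
      (ψ : O (2 * m + 1 + 1) →* O (m + 1 + 1)),
      (∀ (k : Fin (m + 1)) (k1 k2 : Fin (2 * m + 1)), k1.1 = k.1 → k2.1 + k.1 = 2 * m →
        fold (gen _ k) = if k.1 = m then gen _ k1 else gen _ k1 * gen _ k2) ∧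
      (∀ (k : Fin (m + 1)) (k1 : Fin (2 * m + 1 + 1)), k1.1 = k.1 → ψ (ox k1) = ox k.castSucc) ∧
      (∀ j : Gp (CoxeterMatrix.B (m + 1)) →* Gp (CoxeterMatrix.A (m + 1)),
        (∀ i : Fin (m + 1), j (gen _ i) = if i.1 + 1 = m + 1 then gen _ i ^ 2 else gen _ i) →
        ∀ a y, Ψ (j a) (ψ y) = ψ (Ψ' (fold a) y))

/-- DTB: cliques of type B. -/
def DtbStmt : Prop :=
  ∀ {S : Type} [Finite S] (M : CoxeterMatrix S) (C : Set S) (n : ℕ),
    IsoTo (res M C) (CoxeterMatrix.B n) → Det M C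

/-- I2F: folding of the dihedral Artin group of label `m + 2` into the braid group on `m + 2`
strands. -/
def I2fStmt : Prop :=
  ∀ (m : ℕ) (fold : Gp (CoxeterMatrix.I m) →* Gp (CoxeterMatrix.A (m + 1))), 1 ≤ m →
    (∀ i : Fin 2, fold (gen _ i) =
      (((List.finRange (m + 1)).filter (fun k => k.1 % 2 = i.1)).map (gen _)).prod) →
    ∀ a : Gp (CoxeterMatrix.I m),
      (∀ i : Fin 2, fold a ∈ P (CoxeterMatrix.A (m + 1)) {k | k.1 % 2 = i.1} →
        ∃ p : ℤ, a = gen _ i ^ p) ∧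
      ((∃ b ∈ P (CoxeterMatrix.A (m + 1)) {k | k.1 % 2 = 1},
        ∃ c ∈ P (CoxeterMatrix.A (m + 1)) {k | k.1 % 2 = 0}, fold a = b * c) →
        ∃ p q : ℤ, a = gen _ 1 ^ p * gen _ 0 ^ q)

/-- DTI: cliques with two elements. -/
def DtiStmt : Prop :=
  ∀ {S : Type} [Finite S] (M : CoxeterMatrix S) (C : Set S) (m : ℕ), 1 ≤ m →
    IsoTo (res M C) (CoxeterMatrix.I m) → Det M C

/-- DSB: subsets. -/
def DsbStmt : Prop :=
  ∀ {S : Type} [Finite S] (M : CoxeterMatrix S) (C C' : Set S), C' ⊆ C → Det M C → Det M C'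

/-- FIN: the theorem.  Every set of generators with pairwise finite labels is contained in a set
which is a product of types `A`, `B` and `I2`, or which is coloured faithfully. -/
def FinStmt : Prop :=
  ∀ {S : Type} [Finite S] (M : CoxeterMatrix S),
    (∀ C : Set S, Clique M C → ∃ C', C ⊆ C' ∧ ∃ (ι : Type) (b : S → ι),
      (∀ s ∈ C', ∀ t ∈ C', b s ≠ b t → M.M s t = 2) ∧
      ∀ i, (∃ n, IsoTo (res M {s | s ∈ C' ∧ b s = i}) (CoxeterMatrix.A n)) ∨
        (∃ n, IsoTo (res M {s | s ∈ C' ∧ b s = i}) (CoxeterMatrix.B n)) ∨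
        (∃ m, IsoTo (res M {s | s ∈ C' ∧ b s = i}) (CoxeterMatrix.I m)) ∨
        Det M {s | s ∈ C' ∧ b s = i}) → RF (Gp M)

end Unf
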