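import Mathlib

set_option autoImplicit false

/-!
# Toggles of order ideals of a reduced word

`comm` is a symmetric irreflexive relation on the letters, `w` a word that is reduced: between two
occurrences of a letter there is a letter that does not commute with it.
-/

namespace Unf

section toggle

variable {Λ : Type} (comm : Λ → Λ → Prop) {L : ℕ} (w : Fin L → Λ)

/-- The order ideals of the heap of `w`. -/
def Ok (I : Set (Fin L)) : Prop := ∀ k ∈ I, ∀ i, i < k → ¬ comm (w i) (w k) → i ∈ I

/-- Flip the membership of `j`. -/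
def flip (I : Set (Fin L)) (j : Fin L) : Set (Fin L) := symmDiff I {j}

theorem mem_flip {I : Set (Fin L)} {j a : Fin L} :
    a ∈ flip I j ↔ (a ∈ I ∧ a ≠ j) ∨ (a = j ∧ j ∉ I) := by
  unfold flip
  rw [Set.mem_symmDiff, Set.mem_singleton_iff]
  constructor
  · rintro (h | h)
    · exact Or.inl h
    · exact Or.inr ⟨h.1, h.1 ▸ h.2⟩
  · rintro (h | h)
    · exact Or.inl h
    · exact Or.inr ⟨h.1, h.1 ▸ h.2⟩

theorem mem_flip_self {I : Set (Fin L)} {j : Fin L} : j ∈ flip I j ↔ j ∉ I := by
  rw [mem_flip]; simp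

theorem mem_flip_ne {I : Set (Fin L)} {j a : Fin L} (h : a ≠ j) : a ∈ flip I j ↔ a ∈ I := by
  rw [mem_flip]; simp [h]

theorem flip_flip (I : Set (Fin L)) (j : Fin L) : flip (flip I j) j = I := by
  unfold flip
  exact symmDiff_symmDiff_cancel_right _ _

theorem flip_comm (I : Set (Fin L)) (j k : Fin L) : flip (flip I j) k = flip (flip I k) j := by
  unfold flip
  rw [symmDiff_assoc, symmDiff_comm ({j} : Set (Fin L)) {k}, ← symmDiff_assoc]

variable {comm} {w}

theorem uniq_aux (hs : ∀ x y, comm x y → comm y x) (hirr : ∀ x, ¬ comm x x)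
    (hred : ∀ i j : Fin L, i < j → w i = w j → ∃ k, i < k ∧ k < j ∧ ¬ comm (w i) (w k))
    {I : Set (Fin L)} (hI : Ok comm w I) {j j' : Fin L} (hlt : j < j') (he : w j = w j')
    (h1 : Ok comm w (flip I j)) (h2 : Ok comm w (flip I j')) : False := by
  have hdep : ¬ comm (w j) (w j') := by rw [← he]; exact hirr _
  have hne : j ≠ j' := hlt.ne
  by_cases hj : j ∈ I
  · by_cases hj' : j' ∈ I
    · have := h1 j' ((mem_flip_ne hne.symm).mpr hj') j hlt hdep
      exact mem_flip_self.mp this hj
    · obtain ⟨k, hk1, hk2, hk3⟩ := hred j j' hlt he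
      have hk : k ∈ flip I j' := h2 j' (mem_flip_self.mpr hj') k hk2 (by
        rw [← he]
        exact fun h => hk3 (hs _ _ h))
      have hkI : k ∈ I := (mem_flip_ne hk2.ne).mp hk
      have := h1 k ((mem_flip_ne hk1.ne').mpr hkI) j hk1 hk3
      exact mem_flip_self.mp this hj
  · by_cases hj' : j' ∈ I
    · exact hj (hI j' hj' j hlt hdep)
    · have := h2 j' (mem_flip_self.mpr hj') j hlt hdep
      exact hj ((mem_flip_ne hne).mp this)

theorem uniq (hs : ∀ x y, comm x y → comm y x) (hirr : ∀ x, ¬ comm x x)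
    (hred : ∀ i j : Fin L, i < j → w i = w j → ∃ k, i < k ∧ k < j ∧ ¬ comm (w i) (w k))
    {I : Set (Fin L)} (hI : Ok comm w I) {j j' : Fin L} (he : w j = w j')
    (h1 : Ok comm w (flip I j)) (h2 : Ok comm w (flip I j')) : j = j' := by
  rcases lt_trichotomy j j' with h | h | h
  · exact (uniq_aux hs hirr hred hI h he h1 h2).elim
  · exact h
  · exact (uniq_aux hs hirr hred hI h he.symm h2 h1).elim

theorem sq_aux (hs : ∀ x y, comm x y → comm y x) (hirr : ∀ x, ¬ comm x x)
    {I : Set (Fin L)} {j k : Fin L} (hc : comm (w j) (w k)) (h2 : Ok comm w (flip I k))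
    (h1 : Ok comm w (flip I j)) : Ok comm w (flip (flip I k) j) := by
  have hjk : j ≠ k := by
    rintro rfl
    exact hirr _ hc
  intro b hb a hab hdep
  by_cases hbj : b = j
  · subst hbj
    have hak : a ≠ k := by
      rintro rfl
      exact hdep (hs _ _ hc)
    have haj : a ≠ b := hab.ne
    rw [mem_flip_self, mem_flip_ne hjk] at hb
    have := h1 b (mem_flip_self.mpr hb) a hab hdep
    rw [mem_flip_ne haj] at this
    rw [mem_flip_ne haj, mem_flip_ne hak]
    exact this
  · by_cases haj : a = j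
    · subst haj
      have hbk : b ≠ k := by
        rintro rfl
        exact hdep hc
      rw [mem_flip_ne hbj, mem_flip_ne hbk] at hb
      have := h1 b ((mem_flip_ne hbj).mpr hb) a hab hdep
      rw [mem_flip_self] at this
      rw [mem_flip_self, mem_flip_ne hjk]
      exact this
    · rw [mem_flip_ne hbj] at hb
      rw [mem_flip_ne haj]
      exact h2 b hb a hab hdep

theorem sq (hs : ∀ x y, comm x y → comm y x) (hirr : ∀ x, ¬ comm x x)
    {I : Set (Fin L)} (hI : Ok comm w I) {j k : Fin L} (hc : comm (w j) (w k))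
    (h2 : Ok comm w (flip I k)) : Ok comm w (flip I j) ↔ Ok comm w (flip (flip I k) j) := by
  constructor
  · exact sq_aux hs hirr hc h2
  · intro h
    have := sq_aux hs hirr (I := flip I k) (j := j) (k := k) hc (by rw [flip_flip]; exact hI) h
    rwa [flip_flip] at this

end toggle

/-- The toggles: a family of involutions of a finite set, commuting whenever the letters commute,
such that the word `w` does not fix the point `y0`. -/
theorem toggles {Λ : Type} (comm : Λ → Λ → Prop) (hs : ∀ x y, comm x y → comm y x)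
    (hirr : ∀ x, ¬ comm x x) {L : ℕ} (w : Fin L → Λ)
    (hred : ∀ i j : Fin L, i < j → w i = w j → ∃ k, i < k ∧ k < j ∧ ¬ comm (w i) (w k))
    (hL : 0 < L) :
    ∃ (Y : Type) (_ : Finite Y) (τ : Λ → Equiv.Perm Y) (y0 : Y),
      (∀ x, τ x * τ x = 1) ∧ (∀ x y, comm x y → τ x * τ y = τ y * τ x) ∧
      (List.ofFn w).foldl (fun y x => τ x y) y0 ≠ y0 := by
  classical
  let Y : Type := {I : Set (Fin L) // Ok comm w I}
  -- the toggle
  let f : Λ → Y → Y := fun x I =>
    if h : ∃ j, w j = x ∧ Ok comm w (flip I.1 j) then ⟨flip I.1 h.choose, h.choose_spec.2⟩ else I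
  have f_of : ∀ (x : Λ) (I : Y) (j : Fin L) (_ : w j = x) (h2 : Ok comm w (flip I.1 j)),
      f x I = ⟨flip I.1 j, h2⟩ := by
    intro x I j h1 h2
    have h : ∃ j, w j = x ∧ Ok comm w (flip I.1 j) := ⟨j, h1, h2⟩
    have e : h.choose = j := uniq hs hirr hred I.2 (by rw [h.choose_spec.1, h1])
      h.choose_spec.2 h2
    simp only [f]
    rw [dif_pos h]
    apply Subtype.ext
    simp only [e]
  have f_not : ∀ (x : Λ) (I : Y), (¬ ∃ j, w j = x ∧ Ok comm w (flip I.1 j)) → f x I = I := by
    intro x I h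
    simp only [f]
    rw [dif_neg h]
  have f_inv : ∀ x I, f x (f x I) = I := by
    intro x I
    by_cases h : ∃ j, w j = x ∧ Ok comm w (flip I.1 j)
    · obtain ⟨j, h1, h2⟩ := h
      have h3 : Ok comm w (flip (flip I.1 j) j) := by rw [flip_flip]; exact I.2
      rw [f_of x I j h1 h2, f_of x ⟨flip I.1 j, h2⟩ j h1 h3]
      apply Subtype.ext
      exact flip_flip _ _
    · rw [f_not x I h, f_not x I h]
  have f_comm : ∀ x y, comm x y → ∀ I, f x (f y I) = f y (f x I) := by
    intro x y hxy I
    by_cases hx : ∃ j, w j = x ∧ Ok comm w (flip I.1 j)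
    · obtain ⟨j, h1, h2⟩ := hx
      by_cases hy : ∃ k, w k = y ∧ Ok comm w (flip I.1 k)
      · obtain ⟨k, g1, g2⟩ := hy
        have hc : comm (w j) (w k) := by rw [h1, g1]; exact hxy
        have e1 := (sq hs hirr I.2 hc g2).mp h2
        have e2 := (sq hs hirr I.2 (hs _ _ hc) h2).mp g2
        rw [f_of x I j h1 h2, f_of y I k g1 g2, f_of x ⟨flip I.1 k, g2⟩ j h1 e1,
          f_of y ⟨flip I.1 j, h2⟩ k g1 e2]
        apply Subtype.ext
        exact flip_comm _ _ _
      · rw [f_not y I hy, f_of x I j h1 h2, f_not y ⟨flip I.1 j, h2⟩]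
        rintro ⟨k, g1, g2⟩
        apply hy
        refine ⟨k, g1, ?_⟩
        have hc : comm (w k) (w j) := by rw [h1, g1]; exact hs _ _ hxy
        exact (sq hs hirr I.2 hc h2).mpr g2
    · by_cases hy : ∃ k, w k = y ∧ Ok comm w (flip I.1 k)
      · obtain ⟨k, g1, g2⟩ := hy
        rw [f_not x I hx, f_of y I k g1 g2, f_not x ⟨flip I.1 k, g2⟩]
        rintro ⟨j, h1, h2⟩
        apply hx
        refine ⟨j, h1, ?_⟩
        have hc : comm (w j) (w k) := by rw [h1, g1]; exact hxy
        exact (sq hs hirr I.2 hc g2).mpr h2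
      · rw [f_not y I hy, f_not x I hx, f_not y I hy]
  let τ : Λ → Equiv.Perm Y := fun x => ⟨f x, f x, f_inv x, f_inv x⟩
  have hseg : ∀ n : ℕ, Ok comm w {a : Fin L | a.1 < n} := by
    intro n k hk i hik _
    have h1 : k.1 < n := hk
    have h2 : i.1 < k.1 := hik
    change i.1 < n
    omega
  refine ⟨Y, inferInstance, τ, ⟨{a : Fin L | a.1 < 0}, hseg 0⟩, ?_, ?_, ?_⟩
  · intro x
    ext1 I
    exact f_inv x I
  · intro x y hxy
    ext1 I
    exact f_comm x y hxy I
  · have key : ∀ n : ℕ, n ≤ L → ((List.ofFn w).take n).foldl (fun y x => τ x y)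
        (⟨{a : Fin L | a.1 < 0}, hseg 0⟩ : Y) = ⟨{a : Fin L | a.1 < n}, hseg n⟩ := by
      intro n
      induction n with
      | zero => intro _; rfl
      | succ n ih =>
        intro hn
        have hlen : n < (List.ofFn w).length := by rw [List.length_ofFn]; omega
        rw [← List.take_concat_get' _ n hlen, List.foldl_append, ih (by omega)]
        simp only [List.foldl_cons, List.foldl_nil, List.getElem_ofFn]
        have e : flip {a : Fin L | a.1 < n} ⟨n, by omega⟩ = {a : Fin L | a.1 < n + 1} := by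
          ext a
          rw [mem_flip]
          simp only [Set.mem_ofPred_eq, Fin.ext_iff, ne_eq, lt_irrefl, not_false_eq_true, and_true]
          omega
        change f (w ⟨n, by omega⟩) ⟨{a : Fin L | a.1 < n}, hseg n⟩ = _
        rw [f_of (w ⟨n, by omega⟩) ⟨{a : Fin L | a.1 < n}, hseg n⟩ ⟨n, by omega⟩ rfl
          (by rw [e]; exact hseg (n + 1))]
        apply Subtype.ext
        exact e
    have h1 := key L le_rfl
    rw [List.take_of_length_le (by rw [List.length_ofFn])] at h1
    rw [h1]
    intro h2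
    have h3 := congrArg Subtype.val h2
    have h4 : (⟨0, hL⟩ : Fin L) ∈ {a : Fin L | a.1 < L} := hL
    rw [show ({a : Fin L | a.1 < L} : Set (Fin L)) = {a : Fin L | a.1 < 0} from h3] at h4
    exact absurd h4 (by simp)

end Unf
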