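import Pool.Agent.Helper12_UNF.Rep
import Pool.Agent.Helper12_UNF.Toggle

set_option autoImplicit false

/-! # Squad UNF: the unfolding theorem -/

namespace Unf

open Art

/-- Finitely many elements are separated from closed sets by one subgroup of finite index. -/
theorem exists_N {G ι : Type} [Group G] [Finite ι] (X : ι → Set G) (z : ι → G)
    (h : ∀ i, ClosedIn (X i)) :
    ∃ N : Subgroup G, N.Normal ∧ N.FiniteIndex ∧ ∀ i, z i ∉ X i → ∀ n ∈ N, z i * n ∉ X i := by
  have : ∀ i, ∃ N : Subgroup G, N.Normal ∧ N.FiniteIndex ∧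
      (z i ∉ X i → ∀ n ∈ N, z i * n ∉ X i) := by
    intro i
    by_cases hz : z i ∈ X i
    · exact ⟨⊤, inferInstance, inferInstance, fun h => absurd hz h⟩
    · obtain ⟨N, h1, h2, h3⟩ := h i (z i) hz
      exact ⟨N, h1, h2, fun _ => h3⟩
  choose N h1 h2 h3 using this
  refine ⟨⨅ i, N i, ?_, ?_, ?_⟩
  · exact Subgroup.normal_iInf_normal h1
  · exact Subgroup.finiteIndex_iInf h2
  · intro i hi n hn
    exact h3 i hi n (Subgroup.mem_iInf.1 hn i)

/-- The unfolding theorem. -/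
theorem unf : UnfStmt := by
  classical
  intro S _ M hDet
  obtain ⟨U⟩ := exists_UD M hDet
  apply Group.residuallyFinite_of_forall_exists_finite_monoidHom
  intro g hg
  -- a shortest path from `1` to `g`
  have hex : ∃ n, ∃ l : List (S × Gp M), l.length = n ∧ U.R ∅ 1 g l := by
    obtain ⟨l, hl⟩ := U.exists_path g 1
    rw [one_mul] at hl
    exact ⟨_, l, rfl, hl⟩
  obtain ⟨l, hlen, hl⟩ := Nat.find_spec hex
  have hmin : ∀ l', U.R ∅ 1 g l' → l.length ≤ l'.length := by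
    intro l' hl'
    rw [hlen]
    exact Nat.find_min' hex ⟨l', rfl, hl'⟩
  have hL : 0 < l.length := by
    rcases Nat.eq_zero_or_pos l.length with h | h
    · exfalso
      rw [List.length_eq_zero_iff] at h
      subst h
      cases hl
      exact hg rfl
    · exact h
  -- the finite quotient
  let D' : S → S → Set (Gp M) := fun s t => if s ≠ t ∧ M.M s t ≠ 0 then U.D s t else Set.univ
  have hD' : ∀ s t, ClosedIn (D' s t) := by
    intro s t
    by_cases h : s ≠ t ∧ M.M s t ≠ 0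
    · have : D' s t = U.D s t := if_pos h
      rw [this]; exact U.closedD s t h.1 h.2
    · have : D' s t = Set.univ := if_neg h
      rw [this]
      intro z hz
      exact absurd (Set.mem_univ z) hz
  obtain ⟨N, hN, hNf, hNs⟩ := exists_N (G := Gp M) (ι := (Fin l.length × Fin l.length) × Bool)
    (fun i => if i.2 then (U.Sg (l.get i.1.1).1 : Set (Gp M)) else
      D' (l.get i.1.1).1 (l.get i.1.2).1)
    (fun i => (l.get i.1.1).2⁻¹ * (l.get i.1.2).2) (by
      rintro ⟨⟨i, j⟩, b⟩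
      cases b
      · exact hD' _ _
      · exact U.closedS _)
  have hN1 : ∀ i j, (l.get i).2⁻¹ * (l.get j).2 ∉ U.Sg (l.get i).1 →
      ∀ n ∈ N, (l.get i).2⁻¹ * (l.get j).2 * n ∉ U.Sg (l.get i).1 := by
    intro i j h
    exact hNs ((i, j), true) h
  have hN2 : ∀ i j, (l.get i).1 ≠ (l.get j).1 → M.M (l.get i).1 (l.get j).1 ≠ 0 →
      (l.get i).2⁻¹ * (l.get j).2 ∉ U.D (l.get i).1 (l.get j).1 →
      ∀ n ∈ N, (l.get i).2⁻¹ * (l.get j).2 * n ∉ U.D (l.get i).1 (l.get j).1 := by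
    intro i j h1 h2 h
    have e : D' (l.get i).1 (l.get j).1 = U.D (l.get i).1 (l.get j).1 := if_pos ⟨h1, h2⟩
    have h3 := hNs ((i, j), false)
    simp only [Bool.false_eq_true, if_false] at h3
    rw [e] at h3
    exact h3 h
  let F : Type := Gp M ⧸ N
  have : Finite F := Subgroup.finite_quotient_of_finiteIndex
  let θ : Gp M →* F := QuotientGroup.mk' N
  have hθ : ∀ a b : Gp M, θ a = θ b → ∃ n ∈ N, a * n = b := by
    intro a b h
    refine ⟨a⁻¹ * b, ?_, by group⟩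
    exact QuotientGroup.eq.1 h
  let Hs : S → Subgroup F := fun s => (U.Sg s).map θ
  let comm : S × Set F → S × Set F → Prop := fun X Y =>
    X.1 ≠ Y.1 ∧ M.M X.1 Y.1 ≠ 0 ∧ ∃ x ∈ X.2, ∃ y ∈ Y.2, ∃ d ∈ U.D X.1 Y.1, x⁻¹ * y = θ d
  have hsymm : ∀ X Y, comm X Y → comm Y X := by
    rintro X Y ⟨h1, h2, x, hx, y, hy, d, hd, e⟩
    refine ⟨h1.symm, by rw [M_symm]; exact h2, y, hy, x, hx, d⁻¹, U.inv_mem _ _ _ hd, ?_⟩
    rw [map_inv, ← e]
    group
  have hirr : ∀ X, ¬ comm X X := fun X h => h.1 rfl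
  let w : Fin l.length → S × Set F := fun i => lab Hs (l.get i).1 (θ (l.get i).2)
  have hred : ∀ i j : Fin l.length, i < j → w i = w j → ∃ k, i < k ∧ k < j ∧
      ¬ comm (w i) (w k) := by
    intro i j hij hw
    have hs : (l.get i).1 = (l.get j).1 := congrArg (fun X : S × Set F => X.1) hw
    have hE : U.Eq (l.get i) (l.get j) := by
      refine ⟨hs, ?_⟩
      by_contra hcon
      have hw' : lab Hs (l.get i).1 (θ (l.get i).2) = lab Hs (l.get i).1 (θ (l.get j).2) := by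
        refine hw.trans ?_
        show lab Hs (l.get j).1 (θ (l.get j).2) = lab Hs (l.get i).1 (θ (l.get j).2)
        rw [hs]
      obtain ⟨u, hu, e⟩ := mem_of_lab_eq hw'
      have e' : θ ((l.get i).2⁻¹ * (l.get j).2) = θ u := by
        rw [e, map_mul, map_inv]
      obtain ⟨n, hn, e2⟩ := hθ _ _ e'
      exact hN1 i j hcon n hn (by rw [e2]; exact hu)
    obtain ⟨k, h1, h2, h3⟩ := UD.R.reduced U hl hmin i j hij hE
    refine ⟨k, h1, h2, ?_⟩
    rintro ⟨h4, h5, x, ⟨u, hu, hx⟩, y, ⟨v, hv, hy⟩, d, hd, e⟩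
    apply h3
    refine ⟨h4, h5, ?_⟩
    by_contra hcon
    have hd' : u * d * v⁻¹ ∈ U.D (l.get i).1 (l.get k).1 :=
      U.mul_mem _ _ _ hd _ hu _ ((U.Sg _).inv_mem hv)
    have e' : θ ((l.get i).2⁻¹ * (l.get k).2) = θ (u * d * v⁻¹) := by
      rw [map_mul, map_mul, map_mul, map_inv, map_inv, hx, hy, ← e]
      group
    obtain ⟨n, hn, e2⟩ := hθ _ _ e'
    exact hN2 i k h4 h5 hcon n hn (by rw [e2]; exact hd')
  obtain ⟨Y, hY, τ, y0, hsq, hcomm, hne⟩ := toggles comm hsymm hirr w hred hL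
  have hRD : RD M θ Hs τ := by
    refine ⟨?_, hsq, ?_⟩
    · intro s t hst hm
      exact ⟨_, U.gmem s t hst hm, rfl⟩
    · intro s t hst hm k
      apply hcomm
      refine ⟨hst, hm, k, ?_, k, ?_, 1, U.one_mem s t hst hm, ?_⟩
      · show k⁻¹ * k ∈ Hs s
        rw [inv_mul_cancel]; exact (Hs s).one_mem
      · show k⁻¹ * k ∈ Hs t
        rw [inv_mul_cancel]; exact (Hs t).one_mem
      · rw [inv_mul_cancel, map_one]
  obtain ⟨Φ, hΦ⟩ := hRD.exists_eval U (fun s x hx => ⟨x, hx, rfl⟩)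
  refine ⟨Equiv.Perm (Y × F), inferInstance, inferInstance, Φ, ?_⟩
  intro hΦg
  apply hne
  have h1 := hΦ g l hl y0
  have h2 : Φ g⁻¹ = 1 := by rw [map_inv, hΦg, inv_one]
  rw [h2] at h1
  have h3 : List.ofFn w = l.map (fun x => lab Hs x.1 (θ x.2)) := by
    apply List.ext_getElem
    · simp
    · intro n h1 h2
      simp [w]
  rw [h3, List.foldl_map]
  exact h1.symm

end Unf
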